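import Mathlib

universe u

namespace Pool.Agent.Lib.MP_1748a2_lc

open Cardinal

/-- Bounded (Delta_0) formulas of set theory with free variables among `Fin n`. -/
inductive Delta0 : ℕ → Type
  | mem {n : ℕ} (i j : Fin n) : Delta0 n
  | eq {n : ℕ} (i j : Fin n) : Delta0 n
  | neg {n : ℕ} (φ : Delta0 n) : Delta0 n
  | and {n : ℕ} (φ ψ : Delta0 n) : Delta0 n
  | ball {n : ℕ} (i : Fin n) (φ : Delta0 (n + 1)) : Delta0 n

/-- Truth of a bounded formula in the universe of sets. -/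
def Delta0.Sat : {n : ℕ} → Delta0 n → (Fin n → ZFSet.{u}) → Prop
  | _, .mem i j, v => v i ∈ v j
  | _, .eq i j, v => v i = v j
  | _, .neg φ, v => ¬ φ.Sat v
  | _, .and φ ψ, v => φ.Sat v ∧ ψ.Sat v
  | _, .ball i φ, v => ∀ y ∈ v i, φ.Sat (Fin.cons y v)

/-- Sigma_1 formulas: a block of unbounded existential quantifiers, then a bounded formula. -/
inductive Sigma1 : ℕ → Type
  | base {n : ℕ} (φ : Delta0 n) : Sigma1 n
  | ex {n : ℕ} (φ : Sigma1 (n + 1)) : Sigma1 n

/-- Truth of a Sigma_1 formula in the universe of sets. -/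
def Sigma1.Sat : {n : ℕ} → Sigma1 n → (Fin n → ZFSet.{u}) → Prop
  | _, .base φ, v => φ.Sat v
  | _, .ex φ, v => ∃ y, φ.Sat (Fin.cons y v)

/-- `x ∈ H(κ)`: `x` is contained in a transitive set of cardinality less than `κ`. -/
def InH (κ : Cardinal.{u}) (x : ZFSet.{u}) : Prop :=
  ∃ t : ZFSet.{u}, t.IsTransitive ∧ x ⊆ t ∧ t.card < κ

/-- Measurable cardinal: uncountable and carries a non-principal `μ`-complete ultrafilter. -/
def IsMeasurable (μ : Cardinal.{u}) : Prop :=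
  ℵ₀ < μ ∧ ∃ U : Ultrafilter μ.ord.ToType,
    (∀ x, {x} ∉ U) ∧ CardinalInterFilter (U : Filter μ.ord.ToType) μ

end Pool.Agent.Lib.MP_1748a2_lc
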