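import Pool.Agent.Lib.MP_1748a2_lc.Iter
import Pool.Agent.Lib.MP_1748a2_lc.Defs

/-!
The limit ultrapower of the universe and its transitive collapse.
-/

universe u

namespace Pool.Agent.Lib.MP_1748a2_lc

open Filter Function Set Cardinal

variable {A : Type u} {K : A → Type u}

/-- finitely supported inside `S` -/
def FS {β : Type*} (S : Set A) (f : (∀ ξ, K ξ) → β) : Prop :=
  ∃ s : Finset A, (s : Set A) ⊆ S ∧ DependsOn f s

theorem FS.const {β : Type*} (S : Set A) (x : β) : FS S (fun _ : ∀ ξ, K ξ => x) :=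
  ⟨∅, by simp, fun _ _ _ => rfl⟩

theorem FS.comp {β γ : Type*} {S : Set A} {f : (∀ ξ, K ξ) → β} (hf : FS S f) (h : β → γ) :
    FS S (fun a => h (f a)) := by
  obtain ⟨s, hs, hf⟩ := hf
  exact ⟨s, hs, fun a b hab => by simp only [hf hab]⟩

theorem FS.comp2 {β γ δ : Type*} {S : Set A} {f : (∀ ξ, K ξ) → β} {g : (∀ ξ, K ξ) → γ}
    (hf : FS S f) (hg : FS S g) (h : β → γ → δ) : FS S (fun a => h (f a) (g a)) := by
  classical
  obtain ⟨s, hs, hf⟩ := hf
  obtain ⟨t, ht, hg⟩ := hg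
  refine ⟨s ∪ t, by simp [hs, ht], fun a b hab => ?_⟩
  simp only [hf (fun ξ hξ => hab ξ (by simp [Finset.mem_coe.1 hξ])),
    hg (fun ξ hξ => hab ξ (by simp [Finset.mem_coe.1 hξ]))]

theorem FS.pi {β : Type*} {S : Set A} {n : ℕ} {f : Fin n → (∀ ξ, K ξ) → β}
    (hf : ∀ i, FS S (f i)) : FS S (fun a i => f i a) := by
  classical
  choose s hs hf using hf
  refine ⟨Finset.univ.biUnion s, ?_, fun a b hab => funext fun i => ?_⟩
  · intro ξ hξ
    simp only [Finset.coe_biUnion, Finset.coe_univ, mem_univ, iUnion_true, mem_iUnion] at hξ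
    obtain ⟨i, hi⟩ := hξ
    exact hs i hi
  · refine hf i fun ξ hξ => hab ξ ?_
    simp only [Finset.coe_biUnion, Finset.coe_univ, mem_univ, iUnion_true, mem_iUnion]
    exact ⟨i, hξ⟩

theorem FS.mono {β : Type*} {S T : Set A} {f : (∀ ξ, K ξ) → β} (hf : FS S f) (h : S ⊆ T) :
    FS T f := by
  obtain ⟨s, hs, hf⟩ := hf
  exact ⟨s, hs.trans h, hf⟩

theorem FS.coord {S : Set A} {ξ : A} (h : ξ ∈ S) : FS S (fun a : ∀ ξ, K ξ => a ξ) :=
  ⟨{ξ}, by simpa using h, fun _ _ hab => hab ξ (by simp)⟩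

variable [LinearOrder A] [WellFoundedLT A] (U : ∀ ξ, Ultrafilter (K ξ))
  [∀ ξ, CountableInterFilter (U ξ : Filter (K ξ))]

/-- membership in the ultrapower -/
def E (S : Set A) (g f : (∀ ξ, K ξ) → ZFSet.{u}) : Prop :=
  FS S g ∧ FS S f ∧ ∀ᶠ a in (W U : Filter _), g a ∈ f a

theorem E_wf (S : Set A) : WellFounded (E U S) := by
  classical
  rw [wellFounded_iff_isEmpty_descending_chain]
  refine ⟨fun ⟨f, hf⟩ => ?_⟩
  have h1 : ∀ n, FS S (fun a => f (n + 1) a ∈ f n a) := fun n =>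
    (hf n).1.comp2 (hf n).2.1 (· ∈ ·)
  choose s _ hs using h1
  obtain ⟨a, ha⟩ := W_countable U s hs fun n => (hf n).2.2
  exact (wellFounded_iff_isEmpty_descending_chain.1 ZFSet.mem_wf).false ⟨fun n => f n a, ha⟩

omit [WellFoundedLT A] [∀ ξ, CountableInterFilter (U ξ : Filter (K ξ))] in
theorem small_pred (S : Set A) (f : (∀ ξ, K ξ) → ZFSet.{u}) :
    Small.{u} {g // E U S g f ∧ ∀ a, g a ∈ insert ∅ (f a)} := by
  refine small_of_injective
    (f := fun g => (fun a => (⟨g.1 a, g.2.2 a⟩ : (insert ∅ (f a) : ZFSet.{u})) :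
      ∀ a, (insert ∅ (f a) : ZFSet.{u}))) ?_
  intro g g' h
  refine Subtype.ext (funext fun a => ?_)
  exact congrArg Subtype.val (congrFun h a)

theorem exists_col (S : Set A) : ∃ π : ((∀ ξ, K ξ) → ZFSet.{u}) → ZFSet.{u},
    ∀ f, FS S f → ∀ x, x ∈ π f ↔ ∃ g, FS S g ∧ (∀ᶠ a in (W U : Filter _), g a ∈ f a) ∧ π g = x := by
  classical
  let F : ∀ f : (∀ ξ, K ξ) → ZFSet.{u}, (∀ g, E U S g f → ZFSet.{u}) → ZFSet.{u} := fun f ih =>
    @ZFSet.range _ (small_pred U S f) fun g => ih g.1 g.2.1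
  let π := (E_wf U S).fix F
  have hπ : ∀ f x, x ∈ π f ↔ ∃ g, (E U S g f ∧ ∀ a, g a ∈ insert ∅ (f a)) ∧ π g = x := by
    intro f x
    have : π f = F f fun g _ => π g := WellFounded.fix_eq _ _ _
    rw [this]
    simp only [F]
    rw [@ZFSet.mem_range _ (small_pred U S f)]
    exact ⟨fun ⟨g, hg⟩ => ⟨g.1, g.2, hg⟩, fun ⟨g, h1, h2⟩ => ⟨⟨g, h1⟩, h2⟩⟩
  have trunc : ∀ g f : (∀ ξ, K ξ) → ZFSet.{u}, E U S g f →
      ∃ g', (E U S g' f ∧ ∀ a, g' a ∈ insert ∅ (f a)) ∧ ∀ᶠ a in (W U : Filter _), g a = g' a := by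
    intro g f h
    refine ⟨fun a => if g a ∈ f a then g a else ∅, ⟨⟨h.1.comp2 h.2.1
      (fun x y => if x ∈ y then x else ∅), h.2.1, h.2.2.mono fun a ha => by simp [ha]⟩,
      fun a => ?_⟩, h.2.2.mono fun a ha => by simp [ha]⟩
    by_cases ha : g a ∈ f a <;> simp [ha]
  have congr : ∀ f f' : (∀ ξ, K ξ) → ZFSet.{u}, FS S f → FS S f' →
      (∀ᶠ a in (W U : Filter _), f a = f' a) → π f = π f' := by
    intro f
    induction f using (E_wf U S).induction with
    | h f ih =>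
      intro f' hf hf' h
      ext x
      rw [hπ, hπ]
      constructor
      · rintro ⟨g, ⟨hg, -⟩, rfl⟩
        obtain ⟨g', h1, h2⟩ := trunc g f' ⟨hg.1, hf', by
          filter_upwards [h, hg.2.2] with a h1 h2 using h1 ▸ h2⟩
        exact ⟨g', h1, (ih g hg g' hg.1 h1.1.1 h2).symm⟩
      · rintro ⟨g, ⟨hg, -⟩, rfl⟩
        obtain ⟨g', h1, h2⟩ := trunc g f ⟨hg.1, hf, by
          filter_upwards [h, hg.2.2] with a h1 h2 using h1 ▸ h2⟩
        exact ⟨g', h1, ih g' h1.1 g h1.1.1 hg.1 (h2.mono fun a ha => ha.symm)⟩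
  refine ⟨π, fun f hf x => ?_⟩
  rw [hπ]
  constructor
  · rintro ⟨g, ⟨hg, -⟩, rfl⟩
    exact ⟨g, hg.1, hg.2.2, rfl⟩
  · rintro ⟨g, hg, h, rfl⟩
    obtain ⟨g', h1, h2⟩ := trunc g f ⟨hg, hf, h⟩
    exact ⟨g', h1, (congr g g' hg h1.1.1 h2).symm⟩

/-- the collapsing map -/
noncomputable def col (S : Set A) : ((∀ ξ, K ξ) → ZFSet.{u}) → ZFSet.{u} :=
  (exists_col U S).choose

variable {U}

theorem mem_col {S : Set A} {f : (∀ ξ, K ξ) → ZFSet.{u}} (hf : FS S f) {x : ZFSet.{u}} :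
    x ∈ col U S f ↔ ∃ g, FS S g ∧ (∀ᶠ a in (W U : Filter _), g a ∈ f a) ∧ col U S g = x :=
  (exists_col U S).choose_spec f hf x

theorem col_congr {S : Set A} {f g : (∀ ξ, K ξ) → ZFSet.{u}} (hf : FS S f) (hg : FS S g)
    (h : ∀ᶠ a in (W U : Filter _), f a = g a) : col U S f = col U S g := by
  ext x
  rw [mem_col hf, mem_col hg]
  refine exists_congr fun k => and_congr_right fun _ => and_congr_left fun _ => ?_
  refine eventually_congr ?_
  filter_upwards [h] with a ha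
  rw [ha]

theorem col_inj {S : Set A} (x : ZFSet.{u}) : ∀ {f g : (∀ ξ, K ξ) → ZFSet.{u}}, FS S f → FS S g →
    col U S f = x → col U S g = x → ∀ᶠ a in (W U : Filter _), f a = g a := by
  induction x using ZFSet.inductionOn with
  | h x ih =>
    have key : ∀ {f g : (∀ ξ, K ξ) → ZFSet.{u}}, FS S f → FS S g →
        col U S f = x → col U S g = x → ∀ᶠ a in (W U : Filter _), f a ⊆ g a := by
      intro f g hf hg h1 h2
      by_contra hne
      rw [← Ultrafilter.eventually_not] at hne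
      let c : ZFSet.{u} → ZFSet.{u} → ZFSet.{u} := fun y z =>
        Classical.epsilon fun w => w ∈ y ∧ w ∉ z
      have hc : ∀ y z, ¬ y ⊆ z → c y z ∈ y ∧ c y z ∉ z := by
        intro y z h
        refine Classical.epsilon_spec (p := fun w => w ∈ y ∧ w ∉ z) ?_
        by_contra hh
        push Not at hh
        exact h fun w hw => hh w hw
      have hk : FS S fun a => c (f a) (g a) := hf.comp2 hg c
      have h3 : col U S (fun a => c (f a) (g a)) ∈ x := by
        rw [← h1, mem_col hf]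
        exact ⟨_, hk, hne.mono fun a ha => (hc _ _ ha).1, rfl⟩
      have h4 := h3
      rw [← h2, mem_col hg] at h4
      obtain ⟨k, hk', h5, h6⟩ := h4
      have h7 := ih _ h3 hk' hk h6 rfl
      obtain ⟨a, ha1, ha2, ha3⟩ := (hne.and (h5.and h7)).exists
      exact (hc _ _ ha1).2 (ha3 ▸ ha2)
    intro f g hf hg h1 h2
    filter_upwards [key hf hg h1 h2, key hg hf h2 h1] with a ha hb
    exact ZFSet.ext fun z => ⟨fun h => ha h, fun h => hb h⟩

theorem col_eq_iff {S : Set A} {f g : (∀ ξ, K ξ) → ZFSet.{u}} (hf : FS S f) (hg : FS S g) :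
    col U S f = col U S g ↔ ∀ᶠ a in (W U : Filter _), f a = g a :=
  ⟨fun h => col_inj _ hf hg h rfl, col_congr hf hg⟩

theorem col_mem_iff {S : Set A} {f g : (∀ ξ, K ξ) → ZFSet.{u}} (hf : FS S f) (hg : FS S g) :
    col U S f ∈ col U S g ↔ ∀ᶠ a in (W U : Filter _), f a ∈ g a := by
  rw [mem_col hg]
  refine ⟨fun ⟨k, hk, h1, h2⟩ => ?_, fun h => ⟨f, hf, h, rfl⟩⟩
  filter_upwards [h1, (col_eq_iff hk hf).1 h2] with a h3 h4 using h4 ▸ h3

omit [LinearOrder A] [WellFoundedLT A] in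
theorem FS.cons {S : Set A} {n : ℕ} {g : (∀ ξ, K ξ) → ZFSet.{u}}
    {f : Fin n → (∀ ξ, K ξ) → ZFSet.{u}} (hg : FS S g) (hf : ∀ i, FS S (f i)) :
    ∀ i, FS S ((Fin.cons g f : Fin (n + 1) → (∀ ξ, K ξ) → ZFSet.{u}) i) := by
  intro i
  refine Fin.cases ?_ (fun j => ?_) i
  · simpa using hg
  · simpa using hf j

theorem los {S : Set A} {n : ℕ} (φ : Delta0 n) :
    ∀ f : Fin n → (∀ ξ, K ξ) → ZFSet.{u}, (∀ i, FS S (f i)) →
      (φ.Sat (fun i => col U S (f i)) ↔ ∀ᶠ a in (W U : Filter _), φ.Sat (fun i => f i a)) := by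
  induction φ with
  | mem i j => intro f hf; exact col_mem_iff (hf i) (hf j)
  | eq i j => intro f hf; exact col_eq_iff (hf i) (hf j)
  | neg φ ih =>
    intro f hf
    simp only [Delta0.Sat]
    rw [ih f hf, Ultrafilter.eventually_not]
  | and φ ψ ih1 ih2 =>
    intro f hf
    simp only [Delta0.Sat]
    rw [ih1 f hf, ih2 f hf, eventually_and]
  | @ball n i φ ih =>
    intro f hf
    simp only [Delta0.Sat]
    have e1 : ∀ g : (∀ ξ, K ξ) → ZFSet.{u},
        (Fin.cons (col U S g) (fun i => col U S (f i)) : Fin (n + 1) → ZFSet.{u}) =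
          fun i => col U S ((Fin.cons g f : Fin (n + 1) → (∀ ξ, K ξ) → ZFSet.{u}) i) := by
      intro g; funext i
      refine Fin.cases ?_ (fun j => ?_) i <;> simp
    have e2 : ∀ (g : (∀ ξ, K ξ) → ZFSet.{u}) a,
        (fun i => (Fin.cons g f : Fin (n + 1) → (∀ ξ, K ξ) → ZFSet.{u}) i a) =
          (Fin.cons (g a) (fun i => f i a) : Fin (n + 1) → ZFSet.{u}) := by
      intro g a; funext i
      refine Fin.cases ?_ (fun j => ?_) i <;> simp
    constructor
    · intro h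
      by_contra hne
      rw [← Ultrafilter.eventually_not] at hne
      let c : (Fin n → ZFSet.{u}) → ZFSet.{u} := fun v =>
        Classical.epsilon fun w => w ∈ v i ∧ ¬ φ.Sat (Fin.cons w v)
      have hc : ∀ v : Fin n → ZFSet.{u}, (¬ ∀ y ∈ v i, φ.Sat (Fin.cons y v)) →
          c v ∈ v i ∧ ¬ φ.Sat (Fin.cons (c v) v) := by
        intro v h
        refine Classical.epsilon_spec (p := fun w => w ∈ v i ∧ ¬ φ.Sat (Fin.cons w v)) ?_
        by_contra hh
        push Not at hh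
        exact h hh
      have hk : FS S fun a => c (fun i => f i a) := (FS.pi hf).comp c
      have h1 := h _ ((col_mem_iff hk (hf i)).2 (hne.mono fun a ha => (hc (fun i => f i a) ha).1))
      rw [e1, ih _ (FS.cons hk hf)] at h1
      obtain ⟨a, ha1, ha2⟩ := (hne.and h1).exists
      rw [e2] at ha2
      exact (hc (fun i => f i a) ha1).2 ha2
    · intro h y hy
      obtain ⟨g, hg, h1, rfl⟩ := (mem_col (hf i)).1 hy
      rw [e1, ih _ (FS.cons hg hf)]
      filter_upwards [h, h1] with a h2 h3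
      rw [e2]
      exact h2 _ h3

variable (U) in
/-- the elementary embedding -/
noncomputable def emb (S : Set A) (x : ZFSet.{u}) : ZFSet.{u} := col U S fun _ => x

theorem emb_delta0 (S : Set A) {n : ℕ} (φ : Delta0 n) (v : Fin n → ZFSet.{u}) :
    φ.Sat (fun i => emb U S (v i)) ↔ φ.Sat v := by
  have := los (U := U) (S := S) φ (fun i _ => v i) fun i => FS.const S _
  rw [eventually_const] at this
  exact this

theorem emb_sigma1 (S : Set A) {n : ℕ} (φ : Sigma1 n) :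
    ∀ v : Fin n → ZFSet.{u}, φ.Sat v → φ.Sat (fun i => emb U S (v i)) := by
  induction φ with
  | base φ => intro v h; exact (emb_delta0 S φ v).2 h
  | @ex n φ ih =>
    rintro v ⟨y, hy⟩
    refine ⟨emb U S y, ?_⟩
    have e : (Fin.cons (emb U S y) (fun i => emb U S (v i)) : Fin (n + 1) → ZFSet.{u}) =
        fun i => emb U S ((Fin.cons y v : Fin (n + 1) → ZFSet.{u}) i) := by
      funext i
      refine Fin.cases ?_ (fun j => ?_) i <;> simp
    rw [e]
    exact ih _ hy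

theorem mem_emb {S : Set A} {x z : ZFSet.{u}} :
    z ∈ emb U S x ↔ ∃ g, FS S g ∧ (∀ᶠ a in (W U : Filter _), g a ∈ x) ∧ col U S g = z :=
  mem_col (FS.const S x)

theorem emb_mem_emb {S : Set A} {x y : ZFSet.{u}} : emb U S x ∈ emb U S y ↔ x ∈ y := by
  simp only [emb]
  rw [col_mem_iff (FS.const S _) (FS.const S _), eventually_const]

theorem emb_upair (S : Set A) (x y : ZFSet.{u}) :
    emb U S {x, y} = {emb U S x, emb U S y} := by
  ext z
  rw [ZFSet.mem_pair]
  constructor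
  · intro h
    obtain ⟨g, hg, h1, rfl⟩ := mem_emb.1 h
    simp only [ZFSet.mem_pair, Ultrafilter.eventually_or] at h1
    exact h1.imp (col_congr hg (FS.const S _)) (col_congr hg (FS.const S _))
  · rintro (rfl | rfl) <;> rw [emb_mem_emb] <;> simp

theorem emb_pair (S : Set A) (x y : ZFSet.{u}) :
    emb U S (x.pair y) = (emb U S x).pair (emb U S y) := by
  have h : ∀ x : ZFSet.{u}, emb U S {x} = {emb U S x} := fun x => by
    simpa using emb_upair (U := U) S x x
  simp only [ZFSet.pair, emb_upair, h]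

theorem emb_inter (S : Set A) (x y : ZFSet.{u}) :
    emb U S (x ∩ y) = emb U S x ∩ emb U S y := by
  ext z
  rw [ZFSet.mem_inter]
  constructor
  · intro h
    obtain ⟨g, hg, h1, rfl⟩ := mem_emb.1 h
    simp only [ZFSet.mem_inter, eventually_and] at h1
    exact ⟨mem_emb.2 ⟨g, hg, h1.1, rfl⟩, mem_emb.2 ⟨g, hg, h1.2, rfl⟩⟩
  · rintro ⟨h1, h2⟩
    obtain ⟨g, hg, h0, rfl⟩ := mem_emb.1 h1
    have h3 := (col_mem_iff hg (FS.const S y)).1 h2
    refine mem_emb.2 ⟨g, hg, ?_, rfl⟩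
    filter_upwards [h0, h3] with a h4 h5 using ZFSet.mem_inter.2 ⟨h4, h5⟩

theorem col_transitive {S : Set A} {f : (∀ ξ, K ξ) → ZFSet.{u}} (hf : FS S f)
    (h : ∀ᶠ a in (W U : Filter _), (f a).IsTransitive) : (col U S f).IsTransitive := by
  intro y hy z hz
  obtain ⟨g, hg, h1, rfl⟩ := (mem_col hf).1 hy
  obtain ⟨k, hk, h2, rfl⟩ := (mem_col hg).1 hz
  refine (col_mem_iff hk hf).2 ?_
  filter_upwards [h, h1, h2] with a h3 h4 h5 using h3 _ h4 h5

theorem emb_isOrdinal (S : Set A) {x : ZFSet.{u}} (hx : x.IsOrdinal) :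
    (emb U S x).IsOrdinal := by
  rw [ZFSet.isOrdinal_iff_forall_mem_isTransitive]
  refine ⟨col_transitive (FS.const S x) (Eventually.of_forall fun _ => hx.isTransitive), ?_⟩
  intro y hy
  obtain ⟨g, hg, h1, rfl⟩ := mem_emb.1 hy
  exact col_transitive hg (h1.mono fun a ha => (hx.mem ha).isTransitive)

theorem rank_le_emb (S : Set A) (x : ZFSet.{u}) : x.rank ≤ (emb U S x).rank := by
  induction x using ZFSet.inductionOn with
  | h x ih =>
    rw [ZFSet.rank_le_iff]
    intro y hy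
    exact (ih y hy).trans_lt (ZFSet.rank_lt_of_mem (emb_mem_emb.2 hy))

/-- hereditarily small sets are fixed -/
theorem emb_fix {S : Set A} {c : Cardinal.{u}}
    (hS : ∀ ξ ∈ S, CardinalInterFilter (U ξ : Filter (K ξ)) c) {t : ZFSet.{u}}
    (ht : t.IsTransitive) (hc : t.card < c) (x : ZFSet.{u}) : x ⊆ t → emb U S x = x := by
  induction x using ZFSet.inductionOn with
  | h x ih =>
    intro hx
    have ih' : ∀ y ∈ x, emb U S y = y := fun y hy => ih y hy (ht _ (hx hy))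
    ext z
    constructor
    · intro h
      obtain ⟨g, ⟨s, hs, hg⟩, h1, rfl⟩ := mem_emb.1 h
      have h2 : ∃ y ∈ x, ∀ᶠ a in (W U : Filter _), g a = y := by
        by_contra hne
        push Not at hne
        have h3 : ∀ᶠ a in (W U : Filter _), ∀ i : Shrink x, g a ≠ ((equivShrink x).symm i).1 := by
          refine W_complete U (c := c) ((ZFSet.card_mono hx).trans_lt hc) s
            (fun ξ hξ => hS ξ (hs hξ)) (fun i a b hab => by simp only [hg hab]) fun i => ?_
          exact Ultrafilter.eventually_not.2 (by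
            simpa using hne _ ((equivShrink x).symm i).2)
        obtain ⟨a, ha1, ha2⟩ := (h1.and h3).exists
        exact ha2 (equivShrink x ⟨g a, ha1⟩) (by simp)
      obtain ⟨y, hy, h3⟩ := h2
      rw [col_congr ⟨s, hs, hg⟩ (FS.const S y) h3]
      change emb U S y ∈ x
      rwa [ih' y hy]
    · intro h
      rw [← ih' z h]
      exact emb_mem_emb.2 h

end Pool.Agent.Lib.MP_1748a2_lc
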