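import Pool.Agent.Lib.MP_1748a2_lc.Collapse

/-!
Commutation, factorisation and cardinality bounds for limit ultrapowers.
-/

universe u

namespace Pool.Agent.Lib.MP_1748a2_lc

open Filter Function Set Cardinal

variable {A : Type u} {K : A → Type u}

theorem card_pi_le {ρ : Cardinal.{u}} (hρ : ℵ₀ ≤ ρ) (s : Finset A) (h : ∀ ξ ∈ s, #(K ξ) ≤ ρ) :
    #(∀ ξ : s, K ξ) ≤ ρ := by
  rw [mk_pi]
  refine (prod_le_prod (fun i : s => #(K i)) (fun _ => ρ) fun i => h i.1 i.2).trans ?_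
  rw [prod_const']
  exact pow_le hρ (lt_aleph0_of_finite _)

theorem card_finsets_le {ρ : Cardinal.{u}} (hρ : ℵ₀ ≤ ρ) (T : Set A) (h : #T ≤ ρ) :
    #{s : Finset A // (s : Set A) ⊆ T} ≤ ρ := by
  classical
  have : #{s : Finset A // (s : Set A) ⊆ T} ≤ #(List T) := by
    refine mk_le_of_surjective (f := fun l : List T => ⟨(l.map Subtype.val).toFinset, ?_⟩) ?_
    · intro x hx
      simp only [List.coe_toFinset, List.mem_map, Set.mem_ofPred_eq] at hx
      obtain ⟨a, -, rfl⟩ := hx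
      exact a.2
    · rintro ⟨s, hs⟩
      refine ⟨(s.attach.toList.map fun x => ⟨x.1, hs x.2⟩), Subtype.ext ?_⟩
      ext x
      simp
  exact this.trans ((mk_list_le_max _).trans (max_le hρ h))

variable [LinearOrder A] {U : ∀ ξ, Ultrafilter (K ξ)}

variable (U) in
/-- extension of a finite point -/
noncomputable def extd (s : Finset A) (i : ∀ ξ : s, K ξ) : ∀ ξ, K ξ :=
  fun ξ => if h : ξ ∈ s then i ⟨ξ, h⟩ else base U ξ

theorem extd_restrict (s : Finset A) (a : ∀ ξ, K ξ) {ξ : A} (h : ξ ∈ s) :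
    extd U s (fun η => a η) ξ = a ξ := by
  simp [extd, h]

theorem W_commute {ρ : Cardinal.{u}} (hρ : ℵ₀ ≤ ρ) {S L : Set A}
    (h1 : ∀ ξ ∈ S ∩ L, #(K ξ) ≤ ρ)
    (h2 : ∀ ξ ∈ S \ L, CardinalInterFilter (U ξ : Filter (K ξ)) (Order.succ ρ))
    {P : (∀ ξ, K ξ) → Prop} (hP : FS S P) :
    (∀ᶠ a in (W U : Filter _), ∀ᶠ b in (W U : Filter _), P (pw L a b)) ↔
      ∀ᶠ b in (W U : Filter _), ∀ᶠ a in (W U : Filter _), P (pw L a b) := by
  classical
  have key : ∀ {P : (∀ ξ, K ξ) → Prop}, FS S P →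
      (∀ᶠ a in (W U : Filter _), ∀ᶠ b in (W U : Filter _), P (pw L a b)) →
      ∀ᶠ b in (W U : Filter _), ∀ᶠ a in (W U : Filter _), P (pw L a b) := by
    rintro P ⟨s, hs, hP⟩ h
    let s1 := s.filter (· ∈ L)
    let s2 := s.filter (· ∉ L)
    have hc : #(∀ ξ : s1, K ξ) < Order.succ ρ :=
      Order.lt_succ_of_le (card_pi_le hρ s1 fun ξ hξ =>
        h1 ξ ⟨hs (Finset.mem_filter.1 hξ).1, (Finset.mem_filter.1 hξ).2⟩)
    have h3 : ∀ᶠ b in (W U : Filter _), ∀ i : (∀ ξ : s1, K ξ),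
        ((∀ᶠ b in (W U : Filter _), P (pw L (extd U s1 i) b)) → P (pw L (extd U s1 i) b)) := by
      refine W_complete U hc s2 (fun ξ hξ =>
        h2 ξ ⟨hs (Finset.mem_filter.1 hξ).1, (Finset.mem_filter.1 hξ).2⟩) (fun i b b' hb => ?_)
        fun i => ?_
      · have : P (pw L (extd U s1 i) b) = P (pw L (extd U s1 i) b') :=
          pw_congr hP L (fun _ _ _ => rfl) fun ξ hξ hξ' =>
            hb ξ (Finset.mem_coe.2 (Finset.mem_filter.2 ⟨hξ, hξ'⟩))
        simp only [this]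
      · by_cases hh : ∀ᶠ b in (W U : Filter _), P (pw L (extd U s1 i) b)
        · exact hh.mono fun b hb _ => hb
        · exact Eventually.of_forall fun b hb => absurd hb hh
    filter_upwards [h3] with b hb
    filter_upwards [h] with a ha
    have e : ∀ b, P (pw L (extd U s1 fun η => a η) b) = P (pw L a b) := fun b =>
      pw_congr hP L (fun ξ hξ hξ' => extd_restrict s1 a (Finset.mem_filter.2 ⟨hξ, hξ'⟩))
        fun _ _ _ => rfl
    have := hb (fun η => a η)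
    simp only [e] at this
    exact this ha
  refine ⟨key hP, fun h => ?_⟩
  by_contra hne
  simp only [← Ultrafilter.eventually_not] at hne
  have := key (hP.comp Not) hne
  obtain ⟨b, hb1, hb2⟩ := (h.and this).exists
  obtain ⟨a, ha1, ha2⟩ := (hb1.and hb2).exists
  exact ha2 ha1

omit [LinearOrder A] in
theorem FS.pw_left {β : Type*} {S : Set A} (L : Set A) {G : (∀ ξ, K ξ) → β} (hG : FS S G)
    (b : ∀ ξ, K ξ) : FS (S ∩ L) fun a => G (pw L a b) := by
  classical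
  obtain ⟨s, hs, hG⟩ := hG
  refine ⟨s.filter (· ∈ L), fun ξ hξ => ?_, fun a a' h => ?_⟩
  · have := Finset.mem_filter.1 (Finset.mem_coe.1 hξ)
    exact ⟨hs this.1, this.2⟩
  · exact pw_congr hG L (fun ξ hξ hξ' => h ξ (Finset.mem_coe.2 (Finset.mem_filter.2 ⟨hξ, hξ'⟩)))
      fun _ _ _ => rfl

omit [LinearOrder A] in
theorem FS.pw_right {β : Type*} {S : Set A} (L : Set A) {G : (∀ ξ, K ξ) → β} (hG : FS S G) :
    FS (S \ L) fun b a => G (pw L a b) := by
  classical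
  obtain ⟨s, hs, hG⟩ := hG
  refine ⟨s.filter (· ∉ L), fun ξ hξ => ?_, fun b b' h => funext fun a => ?_⟩
  · have := Finset.mem_filter.1 (Finset.mem_coe.1 hξ)
    exact ⟨hs this.1, this.2⟩
  · exact pw_congr hG L (fun _ _ _ => rfl)
      fun ξ hξ hξ' => h ξ (Finset.mem_coe.2 (Finset.mem_filter.2 ⟨hξ, hξ'⟩))

theorem W_swap {ρ : Cardinal.{u}} (hρ : ℵ₀ ≤ ρ) {S L : Set A} (hL : IsLowerSet L)
    (h1 : ∀ ξ ∈ S ∩ L, #(K ξ) ≤ ρ)
    (h2 : ∀ ξ ∈ S \ L, CardinalInterFilter (U ξ : Filter (K ξ)) (Order.succ ρ))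
    {P : (∀ ξ, K ξ) → Prop} (hP : FS S P) :
    (∀ᶠ c in (W U : Filter _), P c) ↔
      ∀ᶠ b in (W U : Filter _), ∀ᶠ a in (W U : Filter _), P (pw L a b) := by
  rw [← W_commute hρ h1 h2 hP]
  obtain ⟨s, -, hP⟩ := hP
  exact W_fubini U hL s hP

/-- uniformising a function with few values -/
theorem W_uniform {c : Cardinal.{u}} {ι : Type u} (hι : #ι < c) {S : Set A}
    (hS : ∀ ξ ∈ S, CardinalInterFilter (U ξ : Filter (K ξ)) c) {P : ι → (∀ ξ, K ξ) → Prop}
    {β : Type*} {f : (∀ ξ, K ξ) → β} (hf : FS S f) (hP : ∀ i a b, f a = f b → P i a = P i b)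
    (h : ∀ᶠ a in (W U : Filter _), ∃ i, P i a) : ∃ i, ∀ᶠ a in (W U : Filter _), P i a := by
  obtain ⟨s, hs, hf⟩ := hf
  by_contra hne
  have h3 : ∀ᶠ a in (W U : Filter _), ∀ i, ¬ P i a := by
    refine W_complete U hι s (fun ξ hξ => hS ξ (hs hξ))
      (fun i a b hab => by simp only [hP i a b (hf hab)]) fun i => ?_
    exact Ultrafilter.eventually_not.2 fun hh => hne ⟨i, hh⟩
  obtain ⟨a, ⟨i, hi⟩, ha⟩ := (h.and h3).exists
  exact ha i hi

variable [WellFoundedLT A] [∀ ξ, CountableInterFilter (U ξ : Filter (K ξ))]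

theorem col_factor {ρ : Cardinal.{u}} (hρ : ℵ₀ ≤ ρ) {S L : Set A} (hL : IsLowerSet L)
    (h0 : #(S ∩ L : Set A) ≤ ρ) (h1 : ∀ ξ ∈ S ∩ L, #(K ξ) ≤ ρ)
    (h2 : ∀ ξ ∈ S \ L, CardinalInterFilter (U ξ : Filter (K ξ)) (Order.succ ρ)) (x : ZFSet.{u}) :
    ∀ G : (∀ ξ, K ξ) → ZFSet.{u}, FS S G → col U S G = x →
      col U (S \ L) (fun b => col U (S ∩ L) fun a => G (pw L a b)) = x := by
  classical
  induction x using ZFSet.inductionOn with
  | h x ih =>
    rintro G hG rfl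
    have hFS : ∀ {G : (∀ ξ, K ξ) → ZFSet.{u}}, FS S G →
        FS (S \ L) (fun b => col U (S ∩ L) fun a => G (pw L a b)) := fun hG =>
      (hG.pw_right L).comp (col U (S ∩ L))
    have hmem : ∀ {H : (∀ ξ, K ξ) → ZFSet.{u}}, FS S H →
        ((∀ᶠ c in (W U : Filter _), H c ∈ G c) ↔ ∀ᶠ b in (W U : Filter _),
          (col U (S ∩ L) fun a => H (pw L a b)) ∈ col U (S ∩ L) fun a => G (pw L a b)) := by
      intro H hH
      rw [W_swap hρ hL h1 h2 (hH.comp2 hG (· ∈ ·))]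
      refine eventually_congr (Eventually.of_forall fun b => ?_)
      rw [col_mem_iff (hH.pw_left L b) (hG.pw_left L b)]
    ext z
    rw [mem_col (hFS hG)]
    constructor
    · rintro ⟨h, hh, h3, rfl⟩
      -- choose representatives
      let Q : ZFSet.{u} → ((∀ ξ, K ξ) → ZFSet.{u}) → ((∀ ξ, K ξ) → ZFSet.{u}) → Prop :=
        fun y f g => FS (S ∩ L) g ∧ (∀ᶠ a in (W U : Filter _), g a ∈ f a) ∧ col U (S ∩ L) g = y
      let ch : ZFSet.{u} → ((∀ ξ, K ξ) → ZFSet.{u}) → (∀ ξ, K ξ) → ZFSet.{u} :=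
        fun y f => Classical.epsilon (Q y f)
      let g : (∀ ξ, K ξ) → (∀ ξ, K ξ) → ZFSet.{u} := fun b => ch (h b) fun a => G (pw L a b)
      have hg : FS (S \ L) g := hh.comp2 (hG.pw_right L) ch
      have h4 : ∀ᶠ b in (W U : Filter _), Q (h b) (fun a => G (pw L a b)) (g b) :=
        h3.mono fun b hb => Classical.epsilon_spec ((mem_col (hG.pw_left L b)).1 hb)
      obtain ⟨s, hs⟩ : ∃ s : {s : Finset A // (s : Set A) ⊆ S ∩ L},
          ∀ᶠ b in (W U : Filter _), DependsOn (g b) s.1 := by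
        refine W_uniform (Order.lt_succ_of_le (card_finsets_le hρ _ h0)) h2 hg
          (P := fun s b => DependsOn (g b) s.1) (fun i a b hab => by simp only [hab]) ?_
        filter_upwards [h4] with b hb
        obtain ⟨s, hs, hd⟩ := hb.1
        exact ⟨⟨s, hs⟩, hd⟩
      let H : (∀ ξ, K ξ) → ZFSet.{u} := fun c => if DependsOn (g c) s.1 then g c c else ∅
      obtain ⟨t, ht, hgt⟩ := hg
      have hH : FS S H := by
        refine ⟨t ∪ s.1, ?_, fun c c' hc => ?_⟩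
        · rw [Finset.coe_union]
          exact union_subset (ht.trans sdiff_subset) (s.2.trans inter_subset_left)
        · have e : g c = g c' := hgt fun ξ hξ => hc ξ (by simp [Finset.mem_coe.1 hξ])
          simp only [H, ← e]
          split_ifs with hd
          · exact hd fun ξ hξ => hc ξ (by simp [Finset.mem_coe.1 hξ])
          · rfl
      have hHb : ∀ b, DependsOn (g b) s.1 → (fun a => H (pw L a b)) = g b := by
        intro b hb
        funext a
        have e : g (pw L a b) = g b := hgt fun ξ hξ => pw_of_notMem (ht hξ).2 _ _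
        simp only [H, e, if_pos hb]
        exact hb fun ξ hξ => pw_of_mem (s.2 hξ).2 _ _
      have h5 : ∀ᶠ c in (W U : Filter _), H c ∈ G c := by
        rw [hmem hH]
        filter_upwards [h3, h4, hs] with b hb1 hb2 hb3
        rw [hHb b hb3, hb2.2.2]
        exact hb1
      have h6 := (col_mem_iff hH hG).2 h5
      have h7 := ih _ h6 H hH rfl
      rw [col_congr hh (hFS hH), h7]
      · exact h6
      · filter_upwards [h4, hs] with b hb2 hb3
        rw [hHb b hb3, hb2.2.2]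
    · intro hz
      obtain ⟨H, hH, h3, rfl⟩ := (mem_col hG).1 hz
      exact ⟨_, hFS hH, (hmem hH).1 h3, ih _ hz H hH rfl⟩

theorem emb_factor {ρ : Cardinal.{u}} (hρ : ℵ₀ ≤ ρ) {S L : Set A} (hL : IsLowerSet L)
    (h0 : #(S ∩ L : Set A) ≤ ρ) (h1 : ∀ ξ ∈ S ∩ L, #(K ξ) ≤ ρ)
    (h2 : ∀ ξ ∈ S \ L, CardinalInterFilter (U ξ : Filter (K ξ)) (Order.succ ρ)) (x : ZFSet.{u}) :
    emb U S x = emb U (S \ L) (emb U (S ∩ L) x) :=
  (col_factor hρ hL h0 h1 h2 _ (fun _ => x) (FS.const S x) rfl).symm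

theorem card_emb_le {ρ : Cardinal.{u}} (hρ : ℵ₀ ≤ ρ) {S : Set A}
    (h0 : #S ≤ ρ) (h1 : ∀ ξ ∈ S, #(K ξ) ≤ ρ) {x : ZFSet.{u}} (hx : x.card ≤ ρ) :
    (emb U S x).card ≤ 2 ^ ρ := by
  classical
  let ι : Type u := Σ s : {s : Finset A // (s : Set A) ⊆ S},
    ((∀ ξ : s.1, K ξ) → Option (Shrink.{u} x))
  let val : Option (Shrink.{u} x) → ZFSet.{u} := fun o =>
    o.elim ∅ fun i => ((equivShrink x).symm i).1
  let e : ι → ZFSet.{u} := fun p => col U S fun a => val (p.2 fun η => a η)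
  have hsub : emb U S x ⊆ ZFSet.range e := by
    intro z hz
    obtain ⟨g, ⟨s, hs, hg⟩, h3, rfl⟩ := mem_emb.1 hz
    rw [ZFSet.mem_range]
    refine ⟨⟨⟨s, hs⟩, fun i => if h : g (extd U s i) ∈ x then some (equivShrink x ⟨_, h⟩)
      else none⟩, ?_⟩
    refine col_congr ⟨s, hs, fun a b hab => ?_⟩ ⟨s, hs, hg⟩ ?_
    · have : (fun η : s => a η) = fun η : s => b η := funext fun η => hab η η.2
      simp only [this]
    · filter_upwards [h3] with a ha
      have e1 : g (extd U s fun η => a η) = g a := hg fun ξ hξ => extd_restrict s a hξ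
      simp only [e1, dif_pos ha, val, Option.elim, Equiv.symm_apply_apply]
  have h4 : (ZFSet.range e).card ≤ #ι := by
    simpa using ZFSet.lift_card_range_le (f := e)
  refine (ZFSet.card_mono hsub).trans (h4.trans ?_)
  rw [mk_sigma]
  refine (sum_le_sum _ (fun _ => 2 ^ ρ) fun s => ?_).trans ?_
  · rw [← power_def, ← power_self_eq hρ]
    have h5 : #(Option (Shrink.{u} x)) ≤ ρ := by
      rw [mk_option]
      exact add_le_of_le hρ hx (one_le_aleph0.trans hρ)
    refine (power_le_power_right h5).trans (power_le_power_left ?_ ?_)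
    · exact (aleph0_pos.trans_le hρ).ne'
    · exact card_pi_le hρ _ fun ξ hξ => h1 ξ (s.2 hξ)
  · rw [sum_const']
    exact mul_le_of_le (hρ.trans (cantor ρ).le) ((card_finsets_le hρ S h0).trans (cantor ρ).le) le_rfl

end Pool.Agent.Lib.MP_1748a2_lc
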