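import Pool.Agent.Lib.MP_1748a2_lc.Factor

/-!
Fixed points of the iterated ultrapower embeddings.
-/

universe u

namespace Pool.Agent.Lib.MP_1748a2_lc

open Filter Function Set Cardinal

theorem bdd_single {α : Type u} (V : Ultrafilter α) {o : Ordinal.{u}}
    (h : #α < o.cof ∨ CardinalInterFilter (V : Filter α) (Order.succ o.cof))
    (ψ : α → Ordinal.{u}) (hψ : ∀ᶠ x in (V : Filter α), ψ x < o) :
    ∃ β < o, ∀ᶠ x in (V : Filter α), ψ x ≤ β := by
  classical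
  rcases h with h | h
  · obtain ⟨x0, hx0⟩ := hψ.exists
    refine ⟨⨆ x, if ψ x < o then ψ x else ψ x0, Ordinal.iSup_lt_of_lt_cof h fun x => ?_, ?_⟩
    · split_ifs with hx
      · exact hx
      · exact hx0
    · filter_upwards [hψ] with x hx
      have := Ordinal.le_iSup (fun x => if ψ x < o then ψ x else ψ x0) x
      simpa only [if_pos hx] using this
  · obtain ⟨s, hs, hc⟩ := Order.exists_cof_eq (α := o.ToType)
    rw [Ordinal.cof_toType] at hc
    by_contra hne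
    have h1 : ∀ᶠ x in (V : Filter α), ∀ i : s, ¬ ψ x ≤ (i.1.toOrd : Ordinal) := by
      refine (eventually_cardinal_forall (c := Order.succ o.cof) (hc ▸ Order.lt_succ _)).2 fun i => ?_
      exact Ultrafilter.eventually_not.2 fun hh => hne ⟨_, i.1.toOrd.2, hh⟩
    obtain ⟨x, hx1, hx2⟩ := (hψ.and h1).exists
    obtain ⟨y, hy, hy'⟩ := hs (Ordinal.ToType.mk ⟨ψ x, hx1⟩)
    refine hx2 ⟨y, hy⟩ ?_
    have := (Ordinal.ToType.mk (o := o)).symm.monotone hy'
    rw [OrderIso.symm_apply_apply] at this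
    exact this

theorem two_pow_lt_of_measurable {μ ρ : Cardinal.{u}} (hμ : IsMeasurable μ) (h : ρ < μ) :
    2 ^ ρ < μ := by
  classical
  obtain ⟨-, V, hV, hc⟩ := hμ
  by_contra hne
  have h1 : #μ.ord.ToType ≤ #(ρ.out → Bool) := by
    simpa using not_lt.1 hne
  obtain ⟨f⟩ := Cardinal.le_def _ _ |>.1 h1
  have h2 : ∀ i : ρ.out, ∃ b : Bool, ∀ᶠ x in (V : Filter _), f x i = b := by
    intro i
    by_cases hh : ∀ᶠ x in (V : Filter _), f x i = true
    · exact ⟨true, hh⟩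
    · exact ⟨false, (Ultrafilter.eventually_not.2 hh).mono fun x hx => by simpa using hx⟩
  choose b hb using h2
  have h3 : ∀ᶠ x in (V : Filter _), ∀ i, f x i = b i :=
    (eventually_cardinal_forall (c := μ) (by simpa using h)).2 hb
  obtain ⟨x, hx⟩ := h3.exists
  refine hV x (mem_of_superset h3 fun y hy => ?_)
  exact f.injective (funext fun i => (hy i).trans (hx i).symm)

variable {A : Type u} {K : A → Type u} [LinearOrder A] {U : ∀ ξ, Ultrafilter (K ξ)}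

theorem W_bdd {o : Ordinal.{u}} (s : Finset A) :
    (∀ ξ ∈ s, #(K ξ) < o.cof ∨ CardinalInterFilter (U ξ : Filter (K ξ)) (Order.succ o.cof)) →
    ∀ φ : (∀ ξ, K ξ) → Ordinal.{u}, DependsOn φ s → (∀ᶠ a in (W U : Filter _), φ a < o) →
      ∃ β < o, ∀ᶠ a in (W U : Filter _), φ a ≤ β := by
  classical
  induction s using ind_min with
  | h0 =>
    intro _ φ hφ h
    obtain ⟨a, ha⟩ := h.exists
    exact ⟨φ a, ha, Eventually.of_forall fun b => (hφ (by simp)).le⟩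
  | h1 s ξ hξ hmin ih =>
    intro hs φ hφ h
    have hd : ∀ P : Ordinal.{u} → Prop, DependsOn (fun a => P (φ a)) s := fun P a b hab => by
      simp only [hφ hab]
    rw [W_step U (hd (· < o)) hmin] at h
    let ψ : K ξ → Ordinal.{u} := fun x => Classical.epsilon fun β =>
      β < o ∧ ∀ᶠ a in (W U : Filter _), φ (update a ξ x) ≤ β
    have h1 : ∀ᶠ x in (U ξ : Filter _),
        ψ x < o ∧ ∀ᶠ a in (W U : Filter _), φ (update a ξ x) ≤ ψ x :=
      h.mono fun x hx => Classical.epsilon_spec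
        (ih (fun η hη => hs η (Finset.mem_of_mem_erase hη)) _ (dependsOn_update hφ ξ x) hx)
    obtain ⟨β, hβ, h2⟩ := bdd_single (U ξ) (hs ξ hξ) ψ (h1.mono fun x hx => hx.1)
    refine ⟨β, hβ, ?_⟩
    rw [W_step U (hd (· ≤ β)) hmin]
    filter_upwards [h1, h2] with x hx1 hx2
    exact hx1.2.mono fun a ha => ha.trans hx2

variable [WellFoundedLT A] [∀ ξ, CountableInterFilter (U ξ : Filter (K ξ))]

theorem emb_ord_eq {o : Ordinal.{u}} (ho : Order.IsSuccLimit o) {S : Set A}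
    (hB : ∀ ξ ∈ S, #(K ξ) < o.cof ∨ CardinalInterFilter (U ξ : Filter (K ξ)) (Order.succ o.cof))
    (hH : ∀ β < o, emb U S β.toZFSet ∈ o.toZFSet) : emb U S o.toZFSet = o.toZFSet := by
  have hord := emb_isOrdinal (U := U) S (ZFSet.isOrdinal_toZFSet o)
  ext z
  constructor
  · intro hz
    obtain ⟨g, ⟨s, hs, hg⟩, h1, rfl⟩ := mem_emb.1 hz
    obtain ⟨β, hβ, h2⟩ := W_bdd (U := U) s (fun ξ hξ => hB ξ (hs hξ)) (fun a => (g a).rank)
      (fun a b hab => by simp only [hg hab])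
      (h1.mono fun a ha => by simpa using ZFSet.rank_lt_of_mem ha)
    have h3 : col U S g ∈ emb U S (Order.succ β).toZFSet := by
      refine mem_emb.2 ⟨g, ⟨s, hs, hg⟩, ?_, rfl⟩
      filter_upwards [h1, h2] with a ha1 ha2
      obtain ⟨γ, -, hγ⟩ := Ordinal.mem_toZFSet_iff.1 ha1
      rw [← hγ, Ordinal.rank_toZFSet] at ha2
      rw [← hγ, Ordinal.toZFSet_mem_toZFSet_iff]
      exact Order.lt_succ_of_le ha2
    exact (ZFSet.isOrdinal_toZFSet o).mem_trans h3 (hH _ (ho.succ_lt hβ))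
  · intro hz
    have h1 : z.IsOrdinal := (ZFSet.isOrdinal_toZFSet o).mem hz
    rw [← ZFSet.IsOrdinal.rank_lt_iff_mem h1 hord]
    exact (rank_le_emb (U := U) S z).trans_lt (ZFSet.rank_lt_of_mem (emb_mem_emb.2 hz))

theorem mem_ord_of_card_lt {κ : Cardinal.{u}} {y : ZFSet.{u}} (hy : y.IsOrdinal) (h : y.card < κ) :
    y ∈ κ.ord.toZFSet := by
  rw [← hy.toZFSet_rank_eq, Ordinal.toZFSet_mem_toZFSet_iff, lt_ord, ← Ordinal.card_toZFSet,
    hy.toZFSet_rank_eq]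
  exact h

theorem emb_ord_mem {κ ρ : Cardinal.{u}} (hρ : ℵ₀ ≤ ρ) (hκ : 2 ^ ρ < κ) {S L : Set A}
    (hL : IsLowerSet L) (h0 : #(S ∩ L : Set A) ≤ ρ) (h1 : ∀ ξ ∈ S ∩ L, #(K ξ) ≤ ρ)
    (h2 : ∀ ξ ∈ S \ L, CardinalInterFilter (U ξ : Filter (K ξ)) (Order.succ (2 ^ ρ)))
    {β : Ordinal.{u}} (hβ : β.card ≤ ρ) : emb U S β.toZFSet ∈ κ.ord.toZFSet := by
  have hord := emb_isOrdinal (U := U) (S ∩ L) (ZFSet.isOrdinal_toZFSet β)
  have hc : (emb U (S ∩ L) β.toZFSet).card ≤ 2 ^ ρ :=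
    card_emb_le hρ h0 h1 (by rwa [Ordinal.card_toZFSet])
  rw [emb_factor hρ hL h0 h1 (fun ξ hξ => by
      have := h2 ξ hξ
      exact CardinalInterFilter.of_cardinalInterFilter_of_le _
        (Order.succ_le_succ (cantor ρ).le)),
    emb_fix h2 hord.isTransitive (Order.lt_succ_of_le hc) _ (fun _ h => h)]
  exact mem_ord_of_card_lt hord (hc.trans_lt hκ)

/-- lower bound for the image of the critical point -/
theorem card_emb_ge {S : Set A} {x : ZFSet.{u}} (e : ∀ ξ, K ξ → ZFSet.{u})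
    (he : ∀ ξ ∈ S, ∀ y, e ξ y ∈ x) (hnp : ∀ ξ ∈ S, ∀ z, ¬ ∀ᶠ y in (U ξ : Filter (K ξ)), e ξ y = z) :
    #S ≤ (emb U S x).card := by
  classical
  have hFS : ∀ ξ ∈ S, FS S fun a : ∀ ξ, K ξ => e ξ (a ξ) := fun ξ hξ => (FS.coord hξ).comp (e ξ)
  have key : ∀ ξ ∈ S, ∀ η ∈ S, ξ < η →
      ¬ ∀ᶠ a in (W U : Filter (∀ ξ, K ξ)), e ξ (a ξ) = e η (a η) := by
    intro ξ hξ η hη hlt h
    have hd : DependsOn (fun a : ∀ ξ, K ξ => e ξ (a ξ) = e η (a η)) ({ξ, η} : Finset A) := by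
      intro a b hab
      simp only [hab ξ (by simp), hab η (by simp)]
    rw [W_step U hd (ξ := ξ) (by simp [hlt.le])] at h
    obtain ⟨y, hy⟩ := h.exists
    simp only [update_self, update_of_ne hlt.ne'] at hy
    rw [W_single U η (fun w => e ξ y = e η w)] at hy
    exact hnp η hη _ (hy.mono fun w hw => hw.symm)
  let f : S → Shrink.{u} (emb U S x) := fun ξ => equivShrink _
    ⟨col U S fun a => e ξ.1 (a ξ.1),
      mem_emb.2 ⟨_, hFS _ ξ.2, Eventually.of_forall fun a => he _ ξ.2 _, rfl⟩⟩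
  refine mk_le_of_injective (f := f) fun ξ η h => ?_
  have h1 := (col_eq_iff (hFS _ ξ.2) (hFS _ η.2)).1
    (congrArg Subtype.val ((equivShrink _).injective h))
  rcases lt_trichotomy ξ.1 η.1 with hl | hl | hl
  · exact absurd h1 (key _ ξ.2 _ η.2 hl)
  · exact Subtype.ext hl
  · exact absurd (h1.mono fun a ha => ha.symm) (key _ η.2 _ ξ.2 hl)

end Pool.Agent.Lib.MP_1748a2_lc
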