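import Mathlib

/-!
Iterated (limit) products of ultrafilters along a linear order.
-/

universe u

namespace Pool.Agent.Lib.MP_1748a2_lc

open Filter Function Set Cardinal

variable {A : Type u} [LinearOrder A] {K : A → Type u} (U : ∀ ξ, Ultrafilter (K ξ))

/-- iterated product along a list -/
noncomputable def WL : List A → (∀ ξ, K ξ) → Ultrafilter (∀ ξ, K ξ)
  | [], a => pure a
  | ξ :: l, a => (U ξ).bind fun x => WL l (update a ξ x)

theorem ev_bind {α β : Type*} (f : Ultrafilter α) (m : α → Ultrafilter β) (P : β → Prop) :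
    (∀ᶠ c in (f.bind m : Filter β), P c) ↔ ∀ᶠ x in (f : Filter α), ∀ᶠ c in (m x : Filter β), P c := by
  exact Filter.eventually_bind (f := (f : Filter α)) (m := fun x => (m x : Filter β)) (p := P)

theorem WL_nil (a : ∀ ξ, K ξ) (P : (∀ ξ, K ξ) → Prop) :
    (∀ᶠ c in (WL U [] a : Filter _), P c) ↔ P a := by
  simp [WL]

theorem WL_cons (ξ : A) (l : List A) (a : ∀ ξ, K ξ) (P : (∀ ξ, K ξ) → Prop) :
    (∀ᶠ c in (WL U (ξ :: l) a : Filter _), P c) ↔
      ∀ᶠ x in (U ξ : Filter _), ∀ᶠ c in (WL U l (update a ξ x) : Filter _), P c := by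
  rw [WL, ev_bind]

theorem WL_filter {P : (∀ ξ, K ξ) → Prop} {s : Finset A} (hP : DependsOn P s) (l : List A) :
    ∀ a a' : ∀ ξ, K ξ, (∀ ξ ∈ s, a ξ = a' ξ) →
      ((∀ᶠ c in (WL U l a : Filter _), P c) ↔
        ∀ᶠ c in (WL U (l.filter (· ∈ s)) a' : Filter _), P c) := by
  induction l with
  | nil =>
    intro a a' h
    rw [List.filter_nil, WL_nil, WL_nil, hP (fun ξ hξ => h ξ hξ)]
  | cons ξ l ih =>
    intro a a' h
    by_cases hξ : ξ ∈ s
    · rw [List.filter_cons_of_pos (by simpa using hξ), WL_cons, WL_cons]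
      refine eventually_congr (Eventually.of_forall fun x => ih _ _ fun η hη => ?_)
      by_cases e : η = ξ
      · subst e; simp
      · simp [update_of_ne e, h η hη]
    · rw [List.filter_cons_of_neg (by simpa using hξ), WL_cons]
      have : ∀ x, ((∀ᶠ c in (WL U l (update a ξ x) : Filter _), P c) ↔
          ∀ᶠ c in (WL U (l.filter (· ∈ s)) a' : Filter _), P c) := by
        intro x
        refine ih _ _ fun η hη => ?_
        have e : η ≠ ξ := fun e => hξ (e ▸ hη)
        simp [update_of_ne e, h η hη]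
      simp only [this, eventually_const]

theorem WL_update (P : (∀ ξ, K ξ) → Prop) (ξ : A) (x : K ξ) (l : List A) (hl : ξ ∉ l) :
    ∀ a : ∀ ξ, K ξ, ((∀ᶠ c in (WL U l (update a ξ x) : Filter _), P c) ↔
      ∀ᶠ c in (WL U l a : Filter _), P (update c ξ x)) := by
  induction l with
  | nil => intro a; rw [WL_nil, WL_nil]
  | cons η l ih =>
    intro a
    rw [List.mem_cons, not_or] at hl
    rw [WL_cons, WL_cons]
    refine eventually_congr (Eventually.of_forall fun y => ?_)
    rw [update_comm hl.1, ih hl.2]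

/-- a base point -/
noncomputable def base : ∀ ξ, K ξ := fun ξ => Classical.choice (nonempty_of_neBot (U ξ : Filter _))

/-- the limit ultrafilter -/
noncomputable def W : Ultrafilter (∀ ξ, K ξ) :=
  (Ultrafilter.of (atTop : Filter (Finset A))).bind fun t => WL U (t.sort (· ≤ ·)) (base U)

theorem sort_filter {s t : Finset A} (h : s ⊆ t) :
    (t.sort (· ≤ ·)).filter (· ∈ s) = s.sort (· ≤ ·) := by
  refine List.Perm.eq_of_pairwise' (r := (· ≤ ·)) ?_ ?_ ?_
  · exact (t.pairwise_sort _).filter _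
  · exact s.pairwise_sort _
  · refine (List.perm_ext_iff_of_nodup ((t.sort_nodup _).filter _) (s.sort_nodup _)).2 fun a => ?_
    simp only [List.mem_filter, Finset.mem_sort, decide_eq_true_eq]
    exact ⟨fun h => h.2, fun h' => ⟨h h', h'⟩⟩

theorem W_iff {P : (∀ ξ, K ξ) → Prop} {s : Finset A} (hP : DependsOn P s) :
    (∀ᶠ c in (W U : Filter _), P c) ↔ ∀ᶠ c in (WL U (s.sort (· ≤ ·)) (base U) : Filter _), P c := by
  rw [W, ev_bind]
  have h1 : ∀ᶠ t in (Ultrafilter.of (atTop : Filter (Finset A)) : Filter _), s ⊆ t :=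
    (Ultrafilter.of_le _) (eventually_ge_atTop s)
  have h2 : ∀ᶠ t : Finset A in (Ultrafilter.of (atTop : Filter (Finset A)) : Filter (Finset A)),
      ((∀ᶠ c in (WL U (t.sort (· ≤ ·)) (base U) : Filter _), P c) ↔
        ∀ᶠ c in (WL U (s.sort (· ≤ ·)) (base U) : Filter _), P c) := by
    filter_upwards [h1] with t ht
    rw [WL_filter U hP _ _ _ (fun _ _ => rfl), sort_filter ht]
  rw [eventually_congr h2, eventually_const]

theorem dependsOn_update {β : Type*} {P : (∀ ξ, K ξ) → β} {s : Finset A} (hP : DependsOn P s)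
    (ξ : A) (x : K ξ) : DependsOn (fun c => P (update c ξ x)) (s.erase ξ : Finset A) := by
  intro a b h
  refine hP fun η hη => ?_
  by_cases e : η = ξ
  · subst e; simp
  · simp only [update_of_ne e]
    exact h η (by simpa [e] using hη)

/-- the basic recursion -/
theorem W_step {P : (∀ ξ, K ξ) → Prop} {s : Finset A} (hP : DependsOn P s) {ξ : A}
    (hξ : ∀ η ∈ s, ξ ≤ η) :
    (∀ᶠ c in (W U : Filter _), P c) ↔
      ∀ᶠ x in (U ξ : Filter _), ∀ᶠ c in (W U : Filter _), P (update c ξ x) := by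
  have hP' : DependsOn P (insert ξ (s.erase ξ) : Finset A) := by
    refine hP.mono fun η hη => ?_
    by_cases e : η = ξ
    · simp [e]
    · simpa [e] using hη
  rw [W_iff U hP', Finset.sort_insert (· ≤ ·) (fun b hb => hξ b (Finset.mem_of_mem_erase hb))
    (by simp), WL_cons]
  refine eventually_congr (Eventually.of_forall fun x => ?_)
  rw [WL_update U P ξ x _ (by simp), W_iff U (dependsOn_update hP ξ x)]

theorem W_single (ξ : A) (P : K ξ → Prop) :
    (∀ᶠ c in (W U : Filter (∀ ξ, K ξ)), P (c ξ)) ↔ ∀ᶠ x in (U ξ : Filter _), P x := by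
  have h : DependsOn (fun c : ∀ ξ, K ξ => P (c ξ)) ({ξ} : Finset A) := by
    intro a b h
    simp only [h ξ (by simp)]
  rw [W_step U h (ξ := ξ) (by simp)]
  simp

/-- induction on finite sets removing the minimum -/
theorem ind_min {C : Finset A → Prop} (h0 : C ∅)
    (h1 : ∀ (s : Finset A) (ξ : A), ξ ∈ s → (∀ η ∈ s, ξ ≤ η) → C (s.erase ξ) → C s) :
    ∀ s, C s := by
  intro s
  induction s using Finset.strongInduction with
  | H s ih =>
    rcases s.eq_empty_or_nonempty with rfl | hs
    · exact h0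
    · exact h1 s (s.min' hs) (s.min'_mem hs) (fun η hη => s.min'_le η hη)
        (ih _ (Finset.erase_ssubset (s.min'_mem hs)))

open Classical in
/-- glue two points along a set -/
noncomputable def pw (L : Set A) (a b : ∀ ξ, K ξ) : ∀ ξ, K ξ := fun ξ => if ξ ∈ L then a ξ else b ξ

omit [LinearOrder A] in
theorem pw_of_mem {L : Set A} {ξ : A} (h : ξ ∈ L) (a b : ∀ ξ, K ξ) : pw L a b ξ = a ξ := by
  simp [pw, h]

omit [LinearOrder A] in
theorem pw_of_notMem {L : Set A} {ξ : A} (h : ξ ∉ L) (a b : ∀ ξ, K ξ) : pw L a b ξ = b ξ := by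
  simp [pw, h]

theorem pw_update_left {L : Set A} {ξ : A} (h : ξ ∈ L) (a b : ∀ ξ, K ξ) (x : K ξ) :
    pw L (update a ξ x) b = update (pw L a b) ξ x := by
  funext η
  by_cases e : η = ξ
  · subst e; simp [pw, h]
  · simp [pw, update_of_ne e]

theorem pw_update_right {L : Set A} {ξ : A} (h : ξ ∉ L) (a b : ∀ ξ, K ξ) (x : K ξ) :
    pw L a (update b ξ x) = update (pw L a b) ξ x := by
  funext η
  by_cases e : η = ξ
  · subst e; simp [pw, h]
  · simp [pw, update_of_ne e]

omit [LinearOrder A] in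
theorem pw_congr {β : Type*} {P : (∀ ξ, K ξ) → β} {s : Set A} (hP : DependsOn P s) (L : Set A)
    {a a' b b' : ∀ ξ, K ξ} (h1 : ∀ ξ ∈ s, ξ ∈ L → a ξ = a' ξ) (h2 : ∀ ξ ∈ s, ξ ∉ L → b ξ = b' ξ) :
    P (pw L a b) = P (pw L a' b') := by
  refine hP fun ξ hξ => ?_
  by_cases h : ξ ∈ L
  · rw [pw_of_mem h, pw_of_mem h, h1 ξ hξ h]
  · rw [pw_of_notMem h, pw_of_notMem h, h2 ξ hξ h]

/-- Fubini along a lower set -/
theorem W_fubini {L : Set A} (hL : IsLowerSet L) (s : Finset A) :
    ∀ {P : (∀ ξ, K ξ) → Prop}, DependsOn P s →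
      ((∀ᶠ c in (W U : Filter _), P c) ↔
        ∀ᶠ a in (W U : Filter _), ∀ᶠ b in (W U : Filter _), P (pw L a b)) := by
  have key : ∀ (s : Finset A) {P : (∀ ξ, K ξ) → Prop}, DependsOn P s → (∀ ξ ∈ s, ξ ∉ L) →
      ((∀ᶠ c in (W U : Filter _), P c) ↔
        ∀ᶠ a in (W U : Filter _), ∀ᶠ b in (W U : Filter _), P (pw L a b)) := by
    intro s P hP hs
    have : ∀ a b, P (pw L a b) = P b := fun a b =>
      hP fun ξ hξ => pw_of_notMem (hs ξ hξ) a b
    simp only [this, eventually_const]
  induction s using ind_min with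
  | h0 => intro P hP; exact key _ hP (by simp)
  | h1 s ξ hξ hmin ih =>
    intro P hP
    by_cases hξL : ξ ∈ L
    · have hQ : DependsOn (fun a => ∀ᶠ b in (W U : Filter _), P (pw L a b)) s := by
        intro a a' h
        have : ∀ b, P (pw L a b) = P (pw L a' b) := fun b =>
          pw_congr hP L (fun ξ hξ _ => h ξ hξ) (fun _ _ _ => rfl)
        simp only [this]
      rw [W_step U hP hmin, W_step U hQ hmin]
      refine eventually_congr (Eventually.of_forall fun x => ?_)
      rw [ih (dependsOn_update hP ξ x)]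
      simp only [pw_update_left hξL]
    · exact key s hP fun η hη hηL => hξL (hL (hmin η hη) hηL)

/-- completeness for a common support -/
theorem W_complete {c : Cardinal.{u}} {ι : Type u} (hι : #ι < c) (s : Finset A) :
    (∀ ξ ∈ s, CardinalInterFilter (U ξ : Filter (K ξ)) c) →
    ∀ {P : ι → (∀ ξ, K ξ) → Prop}, (∀ i, DependsOn (P i) s) →
      (∀ i, ∀ᶠ a in (W U : Filter _), P i a) → ∀ᶠ a in (W U : Filter _), ∀ i, P i a := by
  induction s using ind_min with
  | h0 =>
    intro _ P hP h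
    refine Eventually.of_forall fun a i => ?_
    obtain ⟨b, hb⟩ := (h i).exists
    rwa [hP i (x := a) (y := b) (by simp)]
  | h1 s ξ hξ hmin ih =>
    intro hc P hP h
    have hQ : DependsOn (fun a => ∀ i, P i a) s := by
      intro a a' h
      have : ∀ i, P i a = P i a' := fun i => hP i h
      simp only [this]
    rw [W_step U hQ hmin]
    have := hc ξ hξ
    have h1 : ∀ᶠ x in (U ξ : Filter _), ∀ i, ∀ᶠ a in (W U : Filter _), P i (update a ξ x) :=
      (eventually_cardinal_forall hι).2 fun i => (W_step U (hP i) hmin).1 (h i)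
    filter_upwards [h1] with x hx
    exact ih (fun η hη => hc η (Finset.mem_of_mem_erase hη))
      (fun i => dependsOn_update (hP i) ξ x) hx

/-- countable intersections of finitely supported large sets are nonempty -/
theorem W_countable [WellFoundedLT A] [∀ ξ, CountableInterFilter (U ξ : Filter (K ξ))]
    {P : ℕ → (∀ ξ, K ξ) → Prop} (s : ℕ → Finset A) (hP : ∀ n, DependsOn (P n) (s n))
    (h : ∀ n, ∀ᶠ a in (W U : Filter _), P n a) : ∃ a, ∀ n, P n a := by
  classical
  -- the invariant
  let Inv : Set A → (∀ ξ, K ξ) → Prop := fun L a => ∀ n, ∀ᶠ b in (W U : Filter _), P n (pw L a b)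
  have step : ∀ (ξ : A) (a : ∀ ξ, K ξ), Inv (Iio ξ) a → ∃ x, Inv (Iic ξ) (update a ξ x) := by
    intro ξ a ha
    have h1 : ∀ n, ∀ᶠ x in (U ξ : Filter _), ∀ᶠ b in (W U : Filter _),
        P n (pw (Iic ξ) (update a ξ x) b) := by
      intro n
      have hd : DependsOn (fun b => P n (pw (Iio ξ) a b)) ((s n).filter (ξ ≤ ·) : Finset A) := by
        intro b b' hb
        refine pw_congr (hP n) _ (fun _ _ _ => rfl) fun η hη hη' => hb η ?_
        simp only [Finset.coe_filter, Set.mem_ofPred_eq]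
        exact ⟨hη, by simpa using hη'⟩
      have := (W_step U hd (ξ := ξ) (fun η hη => (Finset.mem_filter.1 hη).2)).1 (ha n)
      refine this.mono fun x hx => hx.mono fun b hb => ?_
      have e : pw (Iic ξ) (update a ξ x) b = pw (Iio ξ) a (update b ξ x) := by
        funext η
        rcases lt_trichotomy η ξ with hl | rfl | hl
        · rw [pw_of_mem (show η ∈ Iic ξ from hl.le), pw_of_mem (show η ∈ Iio ξ from hl),
            update_of_ne hl.ne]
        · rw [pw_of_mem (show η ∈ Iic η from le_rfl), pw_of_notMem (show η ∉ Iio η from lt_irrefl _)]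
          simp
        · rw [pw_of_notMem (show η ∉ Iic ξ from not_le.2 hl),
            pw_of_notMem (show η ∉ Iio ξ from not_lt.2 hl.le), update_of_ne hl.ne']
      rw [e]; exact hb
    exact (eventually_countable_forall.2 h1).exists
  -- recursion
  let ext : ∀ ξ : A, (∀ η, η < ξ → K η) → ∀ η, K η := fun ξ g η =>
    if h : η < ξ then g η h else base U η
  let F : ∀ ξ : A, (∀ η, η < ξ → K η) → K ξ := fun ξ g =>
    if h : ∃ x, Inv (Iic ξ) (update (ext ξ g) ξ x) then h.choose else base U ξ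
  let a : ∀ ξ, K ξ := (wellFounded_lt (α := A)).fix F
  have ha : ∀ ξ, a ξ = F ξ fun η _ => a η := fun ξ => WellFounded.fix_eq _ _ _
  have congrInv : ∀ (L : Set A) (a a' : ∀ ξ, K ξ), (∀ ξ ∈ L, a ξ = a' ξ) → Inv L a → Inv L a' := by
    intro L a a' hh hi n
    refine (hi n).mono fun b hb => ?_
    rwa [← pw_congr (hP n) L (fun ξ _ hξ => hh ξ hξ) (fun _ _ _ => rfl)]
  have lim : ∀ L : Set A, IsLowerSet L → (∀ η ∈ L, Inv (Iic η) a) → Inv L a := by
    intro L hL hi n
    rcases ((s n).filter (· ∈ L)).eq_empty_or_nonempty with he | hne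
    · refine (h n).mono fun b hb => ?_
      rw [hP n (y := b)]
      · exact hb
      · intro ξ hξ
        refine pw_of_notMem (fun hh => ?_) _ _
        have : ξ ∈ (s n).filter (· ∈ L) := Finset.mem_filter.2 ⟨hξ, hh⟩
        simp [he] at this
    · have hm := Finset.mem_filter.1 (Finset.max'_mem _ hne)
      refine (hi _ hm.2 n).mono fun b hb => ?_
      rw [hP n (y := pw (Iic (Finset.max' _ hne)) a b)]
      · exact hb
      · intro ξ hξ
        by_cases hξL : ξ ∈ L
        · rw [pw_of_mem hξL, pw_of_mem]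
          exact Finset.le_max' _ ξ (Finset.mem_filter.2 ⟨hξ, hξL⟩)
        · rw [pw_of_notMem hξL, pw_of_notMem]
          exact fun hh => hξL (hL hh hm.2)
  have main : ∀ ξ, Inv (Iic ξ) a := by
    intro ξ
    induction ξ using (wellFounded_lt (α := A)).induction with
    | h ξ ih =>
      have h1 : Inv (Iio ξ) a := lim _ (isLowerSet_Iio ξ) fun η hη => ih η hη
      have h2 : Inv (Iio ξ) (ext ξ fun η _ => a η) :=
        congrInv _ _ _ (fun η hη => by simp [ext, show η < ξ from hη]) h1
      have h3 := step ξ _ h2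
      have h4 : a ξ = h3.choose := by rw [ha]; simp only [F]; rw [dif_pos h3]
      refine congrInv _ _ _ (fun η hη => ?_) h3.choose_spec
      rcases (show η ≤ ξ from hη).eq_or_lt with rfl | hl
      · rw [update_self, h4]
      · rw [update_of_ne hl.ne]; simp [ext, hl]
  have fin := lim univ isLowerSet_univ fun η _ => main η
  refine ⟨a, fun n => ?_⟩
  obtain ⟨b, hb⟩ := (fin n).exists
  have : pw univ a b = a := funext fun ξ => pw_of_mem (mem_univ _) _ _
  rwa [this] at hb

end Pool.Agent.Lib.MP_1748a2_lc
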