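import Pool.Agent.Lib.MP_1748a2_lc.Fix

/-!
The universal system of measures below a limit of measurable cardinals, and the main argument.
-/

universe u

namespace Pool.Agent.Lib.MP_1748a2_lc

open Filter Function Set Cardinal

variable (κ : Cardinal.{u})

/-- size of an initial segment -/
noncomputable def sz (m : κ.ord.ToType) : Cardinal.{u} := #(Iio m)

/-- indices of measurable cardinals -/
abbrev GG := {m : κ.ord.ToType // IsMeasurable (sz κ m)}

/-- the index set of the iteration -/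
abbrev AA := GG κ ×ₗ κ.ord.ToType

/-- the measurable cardinal used at a stage -/
noncomputable def mu (ξ : AA κ) : Cardinal.{u} := sz κ (ofLex ξ).1.1

/-- the underlying set of the measure -/
abbrev KK (ξ : AA κ) : Type u := (mu κ ξ).ord.ToType

theorem mu_meas (ξ : AA κ) : IsMeasurable (mu κ ξ) := (ofLex ξ).1.2

/-- the measure used at a stage -/
noncomputable def UU (ξ : AA κ) : Ultrafilter (KK κ ξ) := (mu_meas κ ξ).2.choose

theorem UU_np (ξ : AA κ) (x : KK κ ξ) : {x} ∉ UU κ ξ := (mu_meas κ ξ).2.choose_spec.1 x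

theorem UU_comp (ξ : AA κ) {c : Cardinal.{u}} (h : c ≤ mu κ ξ) :
    CardinalInterFilter (UU κ ξ : Filter (KK κ ξ)) c := by
  have : CardinalInterFilter (UU κ ξ : Filter (KK κ ξ)) (mu κ ξ) := (mu_meas κ ξ).2.choose_spec.2
  exact CardinalInterFilter.of_cardinalInterFilter_of_le (c := mu κ ξ) _ h

instance UU_countable (ξ : AA κ) : CountableInterFilter (UU κ ξ : Filter (KK κ ξ)) := by
  have := UU_comp κ ξ le_rfl
  exact CardinalInterFilter.toCountableInterFilter _ (mu_meas κ ξ).1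

theorem card_KK (ξ : AA κ) : #(KK κ ξ) = mu κ ξ := mk_ord_toType _

variable {κ}

theorem sz_lt (m : κ.ord.ToType) : sz κ m < κ := by
  simpa [sz] using mk_Iio_lt m

theorem sz_mono {m m' : κ.ord.ToType} (h : m ≤ m') : sz κ m ≤ sz κ m' :=
  mk_le_mk_of_subset (Iio_subset_Iio h)

theorem exists_sz {μ : Cardinal.{u}} (h : μ < κ) : ∃ m, sz κ m = μ := by
  refine ⟨Ordinal.enum (α := κ.ord.ToType) (· < ·) ⟨μ.ord, ?_⟩, ?_⟩
  · simpa using ord_lt_ord.2 h
  · have := Ordinal.card_typein (r := ((· < ·) : κ.ord.ToType → κ.ord.ToType → Prop))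
      (Ordinal.enum (α := κ.ord.ToType) (· < ·) ⟨μ.ord, by simpa using ord_lt_ord.2 h⟩)
    rw [Ordinal.typein_enum, card_ord] at this
    exact this.symm

variable (κ) in
/-- stages with small measures -/
def LL (ρ : Cardinal.{u}) : Set (AA κ) := {ξ | mu κ ξ ≤ ρ}

theorem LL_lower (ρ : Cardinal.{u}) : IsLowerSet (LL κ ρ) := by
  intro ξ η h hξ
  have h1 : (ofLex η).1 ≤ (ofLex ξ).1 := Prod.Lex.monotone_fst_ofLex h
  exact (sz_mono (show (ofLex η).1.1 ≤ (ofLex ξ).1.1 from h1)).trans hξ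

/-- a block of stages -/
def BB (m : GG κ) (α : κ.ord.ToType) : Set (AA κ) := {ξ | (ofLex ξ).1 = m ∧ (ofLex ξ).2 < α}

theorem card_BB (m : GG κ) (α : κ.ord.ToType) : #(BB m α) = sz κ α := by
  refine mk_congr ⟨fun ξ => ⟨(ofLex ξ.1).2, ξ.2.2⟩, fun η => ⟨toLex (m, η.1), rfl, η.2⟩, ?_, ?_⟩
  · rintro ⟨ξ, h1, h2⟩
    subst h1
    rfl
  · intro η; rfl

theorem mu_BB {m : GG κ} {α : κ.ord.ToType} {ξ : AA κ} (h : ξ ∈ BB m α) : mu κ ξ = sz κ m.1 := by
  rw [mu, h.1]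

/-- sets of stages whose iteration fixes the parameters -/
def Good (l : Cardinal.{u}) (S : Set (AA κ)) : Prop :=
  (∀ ξ ∈ S, l < mu κ ξ) ∧ ∀ β < κ, ∃ ρ, β ≤ ρ ∧ ρ < κ ∧ ℵ₀ ≤ ρ ∧ #(S ∩ LL κ ρ : Set (AA κ)) ≤ ρ

theorem two_pow_lt (hlim : ∀ ν < κ, ∃ μ, ν < μ ∧ μ < κ ∧ IsMeasurable μ) {ρ : Cardinal.{u}}
    (h : ρ < κ) : 2 ^ ρ < κ := by
  obtain ⟨μ, h1, h2, h3⟩ := hlim ρ h
  exact (two_pow_lt_of_measurable h3 h1).trans h2

theorem exists_GG (hlim : ∀ ν < κ, ∃ μ, ν < μ ∧ μ < κ ∧ IsMeasurable μ) {ρ : Cardinal.{u}}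
    (h : ρ < κ) : ∃ m : GG κ, ρ < sz κ m.1 := by
  obtain ⟨μ, h1, h2, h3⟩ := hlim ρ h
  obtain ⟨m, rfl⟩ := exists_sz h2
  exact ⟨⟨m, h3⟩, h1⟩

theorem emb_kappa (hκ : ℵ₀ ≤ κ) (hlim : ∀ ν < κ, ∃ μ, ν < μ ∧ μ < κ ∧ IsMeasurable μ)
    {l : Cardinal.{u}} (hl : κ.ord.cof < κ → κ.ord.cof ≤ l) {S : Set (AA κ)} (hS : Good l S) :
    emb (UU κ) S κ.ord.toZFSet = κ.ord.toZFSet := by
  refine emb_ord_eq (isSuccLimit_ord hκ) (fun ξ hξ => ?_) fun β hβ => ?_
  · rcases (Ordinal.cof_ord_le κ).eq_or_lt with h | h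
    · left
      rw [card_KK, h]
      exact sz_lt _
    · right
      exact UU_comp κ ξ (Order.succ_le_of_lt ((hl h).trans_lt (hS.1 ξ hξ)))
  · obtain ⟨ρ, h1, h2, h3, h4⟩ := hS.2 β.card (lt_ord.1 hβ)
    refine emb_ord_mem h3 (two_pow_lt hlim h2) (LL_lower ρ) h4 (fun ξ hξ => ?_) (fun ξ hξ => ?_) h1
    · rw [card_KK]; exact hξ.2
    · exact UU_comp κ ξ (Order.succ_le_of_lt
        (two_pow_lt_of_measurable (mu_meas κ ξ) (not_le.1 hξ.2)))

theorem good_BB {l : Cardinal.{u}} {m : GG κ} (hm : l < sz κ m.1) (α : κ.ord.ToType) :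
    Good l (BB m α) := by
  refine ⟨fun ξ hξ => by rwa [mu_BB hξ], fun β hβ => ⟨max β (max (sz κ m.1) (sz κ α)),
    le_max_left _ _, max_lt hβ (max_lt (sz_lt _) (sz_lt _)),
    m.2.1.le.trans ((le_max_left _ _).trans (le_max_right _ _)), ?_⟩⟩
  refine (mk_le_mk_of_subset inter_subset_left).trans ?_
  rw [card_BB]
  exact (le_max_right _ _).trans (le_max_right _ _)

/-- unions of blocks -/
def SS (m : ℕ → GG κ) (α : ℕ → κ.ord.ToType) (k : ℕ) : Set (AA κ) :=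
  {ξ | ∃ i, k ≤ i ∧ ξ ∈ BB (m i) (α i)}

section seq

variable {m : ℕ → GG κ} {α : ℕ → κ.ord.ToType}
  (hm : ∀ i, max (sz κ (m i).1) (sz κ (α i)) < sz κ (m (i + 1)).1)

include hm

theorem seq_mono : Monotone fun i => sz κ (m i).1 :=
  monotone_nat_of_le_succ fun i => ((le_max_left _ _).trans_lt (hm i)).le

theorem seq_lt {i j : ℕ} (h : i < j) : max (sz κ (m i).1) (sz κ (α i)) < sz κ (m j).1 :=
  (hm i).trans_le (seq_mono hm h)

theorem good_SS {l : Cardinal.{u}} (h0 : l < sz κ (m 0).1) (k : ℕ) : Good l (SS m α k) := by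
  refine ⟨fun ξ ⟨i, _, hξ⟩ => ?_, fun β hβ => ?_⟩
  · rw [mu_BB hξ]
    exact h0.trans_le (seq_mono hm (Nat.zero_le i))
  · have key : ∀ ρ, ℵ₀ ≤ ρ → (∀ i, sz κ (m i).1 ≤ ρ → sz κ (α i) ≤ ρ) →
        #(SS m α k ∩ LL κ ρ : Set (AA κ)) ≤ ρ := by
      intro ρ hρ h
      have h1 : SS m α k ∩ LL κ ρ ⊆ ⋃ i : ULift.{u} ℕ, (BB (m i.down) (α i.down) ∩ LL κ ρ) := by
        rintro ξ ⟨⟨i, -, hi⟩, hξ⟩
        exact mem_iUnion.2 ⟨⟨i⟩, hi, hξ⟩
      refine (mk_le_mk_of_subset h1).trans ((mk_iUnion_le _).trans ?_)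
      refine mul_le_of_le hρ (by simpa using hρ) (ciSup_le fun i => ?_)
      by_cases hi : sz κ (m i.down).1 ≤ ρ
      · refine (mk_le_mk_of_subset inter_subset_left).trans ?_
        rw [card_BB]
        exact h _ hi
      · have : BB (m i.down) (α i.down) ∩ LL κ ρ = ∅ :=
          eq_empty_of_forall_notMem fun ξ hξ => hi (mu_BB hξ.1 ▸ hξ.2)
        rw [this]
        simp
    by_cases hc : ∃ i, β < sz κ (m i).1
    · obtain ⟨i, hi⟩ := hc
      have hρ : ℵ₀ ≤ max (sz κ (m i).1) (sz κ (α i)) := (m i).2.1.le.trans (le_max_left _ _)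
      refine ⟨_, hi.le.trans (le_max_left _ _), max_lt (sz_lt _) (sz_lt _), hρ,
        key _ hρ fun j hj => ?_⟩
      rcases lt_trichotomy j i with h | rfl | h
      · exact ((le_max_right _ _).trans (seq_lt hm h).le).trans (le_max_left _ _)
      · exact le_max_right _ _
      · exact absurd hj (not_le.2 (seq_lt hm h))
    · push Not at hc
      have hρ : ℵ₀ ≤ β := (m 0).2.1.le.trans (hc 0)
      exact ⟨β, le_rfl, hβ, hρ, key _ hρ fun j _ =>
        ((le_max_right _ _).trans (hm j).le).trans (hc _)⟩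

theorem emb_SS (k : ℕ) (x : ZFSet.{u}) :
    emb (UU κ) (SS m α k) x = emb (UU κ) (SS m α (k + 1)) (emb (UU κ) (BB (m k) (α k)) x) := by
  have e1 : SS m α k ∩ LL κ (max (sz κ (m k).1) (sz κ (α k))) = BB (m k) (α k) := by
    ext ξ
    constructor
    · rintro ⟨⟨i, hi, h1⟩, h2⟩
      rcases hi.eq_or_lt with rfl | hi
      · exact h1
      · exact absurd (mu_BB h1 ▸ h2) (not_le.2 (seq_lt hm hi))
    · intro h
      exact ⟨⟨k, le_rfl, h⟩, (mu_BB h).le.trans (le_max_left _ _)⟩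
  have e2 : SS m α k \ LL κ (max (sz κ (m k).1) (sz κ (α k))) = SS m α (k + 1) := by
    ext ξ
    constructor
    · rintro ⟨⟨i, hi, h1⟩, h2⟩
      rcases hi.eq_or_lt with rfl | hi
      · exact absurd ((mu_BB h1).le.trans (le_max_left _ _)) h2
      · exact ⟨i, hi, h1⟩
    · rintro ⟨i, hi, h1⟩
      exact ⟨⟨i, (Nat.le_succ k).trans hi, h1⟩, fun h2 =>
        absurd (mu_BB h1 ▸ h2) (not_le.2 (seq_lt hm hi))⟩
  rw [← e1, ← e2]
  refine emb_factor (ρ := max (sz κ (m k).1) (sz κ (α k))) ((m k).2.1.le.trans (le_max_left _ _)) (LL_lower _) ?_ (fun ξ hξ => ?_)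
    (fun ξ hξ => ?_) x
  · rw [e1, card_BB]; exact le_max_right _ _
  · rw [card_KK]; exact hξ.2
  · exact UU_comp κ ξ (Order.succ_le_of_lt (not_le.1 hξ.2))

end seq

theorem exists_fixed (hlim : ∀ ν < κ, ∃ μ, ν < μ ∧ μ < κ ∧ IsMeasurable μ) {l : Cardinal.{u}}
    (hl : l < κ) {r : ZFSet.{u} → ZFSet.{u} → Prop} (hwf : WellFounded r)
    (hpres : ∀ S, Good l S → ∀ a b, r a b → r (emb (UU κ) S a) (emb (UU κ) S b)) {x : ZFSet.{u}}
    (htri : ∀ S, Good l S → r x (emb (UU κ) S x) ∨ x = emb (UU κ) S x ∨ r (emb (UU κ) S x) x) :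
    ∃ m : GG κ, ∀ α, emb (UU κ) (BB m α) x = x := by
  have hnot : ∀ S, Good l S → ∀ y, ¬ r (emb (UU κ) S y) y := by
    intro S hS y
    induction y using hwf.induction with
    | h y ih => exact fun h => ih _ h (hpres S hS _ _ h)
  by_contra hne
  push Not at hne
  choose a ha using hne
  have h1 : ∀ m : GG κ, ∃ m' : GG κ, max (sz κ m.1) (sz κ (a m)) < sz κ m'.1 := fun m =>
    exists_GG hlim (max_lt (sz_lt _) (sz_lt _))
  choose nx hnx using h1
  obtain ⟨m0, hm0⟩ := exists_GG hlim hl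
  let m : ℕ → GG κ := fun i => nx^[i] m0
  have hm : ∀ i, max (sz κ (m i).1) (sz κ (a (m i))) < sz κ (m (i + 1)).1 := fun i => by
    simp only [m, iterate_succ_apply']
    exact hnx _
  refine (wellFounded_iff_isEmpty_descending_chain.1 hwf).false
    ⟨fun k => emb (UU κ) (SS m (fun i => a (m i)) k) x, fun k => ?_⟩
  beta_reduce
  rw [emb_SS (α := fun i => a (m i)) hm k]
  refine hpres _ (good_SS (α := fun i => a (m i)) hm hm0 _) _ _ ?_
  have hg : Good l (BB (m k) (a (m k))) :=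
    good_BB (hm0.trans_le (seq_mono (α := fun i => a (m i)) hm (Nat.zero_le k))) _
  rcases htri _ hg with h | h | h
  · exact h
  · exact absurd h.symm (ha _)
  · exact absurd h (hnot _ hg x)

theorem mem_emb_BB (hlim : ∀ ν < κ, ∃ μ, ν < μ ∧ μ < κ ∧ IsMeasurable μ) (m : GG κ)
    {z : ZFSet.{u}} (hz : z ∈ κ.ord.toZFSet) :
    ∃ α, z ∈ emb (UU κ) (BB m α) (sz κ m.1).ord.toZFSet := by
  obtain ⟨γ, hγ, rfl⟩ := Ordinal.mem_toZFSet_iff.1 hz
  obtain ⟨a, ha⟩ := exists_GG hlim (lt_ord.1 hγ)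
  refine ⟨a.1, ?_⟩
  have h1 := card_emb_ge (U := UU κ) (S := BB m a.1) (x := (sz κ m.1).ord.toZFSet)
    (fun ξ y => (y.toOrd : Ordinal).toZFSet) (fun ξ hξ y => by
      rw [Ordinal.toZFSet_mem_toZFSet_iff, ← mu_BB hξ]
      exact y.toOrd.2) (fun ξ _ z hz => by
      obtain ⟨y, hy⟩ := hz.exists
      refine UU_np κ ξ y (mem_of_superset hz fun w hw => ?_)
      have := Ordinal.toZFSet_injective ((show (w.toOrd : Ordinal).toZFSet = z from hw).trans hy.symm)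
      exact (Ordinal.ToType.mk (o := (mu κ ξ).ord)).symm.injective (Subtype.ext this))
  rw [card_BB] at h1
  have hord := emb_isOrdinal (U := UU κ) (BB m a.1)
    (ZFSet.isOrdinal_toZFSet (sz κ m.1).ord)
  by_contra hne
  rw [ZFSet.IsOrdinal.notMem_iff_subset (ZFSet.isOrdinal_toZFSet γ) hord] at hne
  have h2 := ZFSet.card_mono hne
  rw [Ordinal.card_toZFSet] at h2
  exact absurd (h1.trans h2) (not_le.2 ha)

theorem card_le_of_fixed (hκ : ℵ₀ ≤ κ) (hlim : ∀ ν < κ, ∃ μ, ν < μ ∧ μ < κ ∧ IsMeasurable μ)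
    {D : ZFSet.{u}} (hD : D ⊆ ZFSet.powerset κ.ord.toZFSet)
    (h : ∀ x ∈ D, ∃ m : GG κ, ∀ α, emb (UU κ) (BB m α) x = x) : D.card ≤ κ := by
  choose m hm using h
  have key : ∀ (x y : ZFSet.{u}) (k : GG κ), x ⊆ κ.ord.toZFSet →
      (∀ α, emb (UU κ) (BB k α) x = x) → (∀ α, emb (UU κ) (BB k α) y = y) →
      x ∩ (sz κ k.1).ord.toZFSet = y ∩ (sz κ k.1).ord.toZFSet → x ⊆ y := by
    intro x y k hx h1 h2 h3 z hz
    obtain ⟨α, hα⟩ := mem_emb_BB hlim k (hx hz)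
    have h4 : z ∈ emb (UU κ) (BB k α) (x ∩ (sz κ k.1).ord.toZFSet) := by
      rw [emb_inter, h1]
      exact ZFSet.mem_inter.2 ⟨hz, hα⟩
    rw [h3, emb_inter, h2] at h4
    exact (ZFSet.mem_inter.1 h4).1
  let e : Shrink.{u} D → D := (equivShrink D).symm
  let f : Shrink.{u} D → Σ k : GG κ, Shrink.{u} (ZFSet.powerset (sz κ k.1).ord.toZFSet) := fun i =>
    ⟨m (e i).1 (e i).2, equivShrink _ ⟨(e i).1 ∩ (sz κ (m (e i).1 (e i).2).1).ord.toZFSet,
      ZFSet.mem_powerset.2 fun z hz => (ZFSet.mem_inter.1 hz).2⟩⟩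
  have hf : Injective f := by
    intro i j hij
    let g : (Σ k : GG κ, Shrink.{u} (ZFSet.powerset (sz κ k.1).ord.toZFSet)) → ZFSet.{u} :=
      fun p => ((equivShrink _).symm p.2).1
    have h1 : m (e i).1 (e i).2 = m (e j).1 (e j).2 := congrArg Sigma.fst hij
    have h2 := congrArg g hij
    simp only [f, g, Equiv.symm_apply_apply] at h2
    rw [← h1] at h2
    have h3 := hm (e j).1 (e j).2
    rw [← h1] at h3
    refine (equivShrink D).symm.injective (Subtype.ext (ZFSet.ext fun z => ⟨fun hz => ?_, fun hz => ?_⟩))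
    · exact key _ _ _ (ZFSet.mem_powerset.1 (hD (e i).2)) (hm _ (e i).2) h3 h2 hz
    · exact key _ _ _ (ZFSet.mem_powerset.1 (hD (e j).2)) h3 (hm _ (e i).2) h2.symm hz
  refine (mk_le_of_injective hf).trans ?_
  rw [mk_sigma]
  refine (sum_le_sum _ (fun _ => κ) fun k => ?_).trans ?_
  · change (ZFSet.powerset _).card ≤ κ
    rw [ZFSet.card_powerset, Ordinal.card_toZFSet, card_ord]
    exact (two_pow_lt hlim (sz_lt _)).le
  · rw [sum_const']
    refine mul_le_of_le hκ ((mk_subtype_le _).trans (mk_ord_toType κ).le) le_rfl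

theorem main (hκ : ℵ₀ ≤ κ) (hlim : ∀ ν < κ, ∃ μ, ν < μ ∧ μ < κ ∧ IsMeasurable μ)
    {D R : ZFSet.{u}} (hD : D ⊆ ZFSet.powerset κ.ord.toZFSet) (hR : R ⊆ D.prod D)
    (hwo : IsWellOrder D fun a b => ZFSet.pair a.1 b.1 ∈ R)
    {n : ℕ} (φ : Sigma1 (n + 1)) (p : Fin n → ZFSet.{u})
    (hp : ∀ i, InH κ (p i) ∨ p i = κ.ord.toZFSet)
    (hdef : ∀ z, z ∈ R ↔ φ.Sat (Fin.cons z p)) : D.card ≤ κ := by
  classical
  have hκ0 : 0 < κ := aleph0_pos.trans_le hκ
  -- the threshold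
  obtain ⟨l, hl, hl1, hl2⟩ : ∃ l < κ, (κ.ord.cof < κ → κ.ord.cof ≤ l) ∧
      ∀ i, InH κ (p i) → ∃ t : ZFSet.{u}, t.IsTransitive ∧ p i ⊆ t ∧ t.card ≤ l := by
    have h1 : ∀ i, ∃ c < κ, InH κ (p i) → ∃ t : ZFSet.{u}, t.IsTransitive ∧ p i ⊆ t ∧ t.card ≤ c := by
      intro i
      by_cases h : InH κ (p i)
      · obtain ⟨t, h1, h2, h3⟩ := h
        exact ⟨_, h3, fun _ => ⟨t, h1, h2, le_rfl⟩⟩
      · exact ⟨0, hκ0, fun hh => absurd hh h⟩
    choose c hc1 hc2 using h1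
    refine ⟨max (if κ.ord.cof < κ then κ.ord.cof else 0) (Finset.univ.sup c), max_lt ?_ ?_,
      fun h => ?_, fun i hi => ?_⟩
    · split_ifs with h
      · exact h
      · exact hκ0
    · exact (Finset.sup_lt_iff hκ0).2 fun i _ => hc1 i
    · rw [if_pos h]; exact le_max_left _ _
    · obtain ⟨t, h1, h2, h3⟩ := hc2 i hi
      exact ⟨t, h1, h2, h3.trans ((Finset.le_sup (Finset.mem_univ i)).trans (le_max_right _ _))⟩
  have hmem : ∀ {a b : ZFSet.{u}}, a.pair b ∈ R → a ∈ D ∧ b ∈ D := fun h =>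
    ZFSet.pair_mem_prod.1 (hR h)
  have hwf : WellFounded fun a b : ZFSet.{u} => a.pair b ∈ R := by
    rw [wellFounded_iff_isEmpty_descending_chain]
    exact ⟨fun ⟨f, hf⟩ => (wellFounded_iff_isEmpty_descending_chain.1 hwo.wf).false
      ⟨fun n => ⟨f n, (hmem (hf n)).2⟩, hf⟩⟩
  have htri : ∀ a ∈ D, ∀ b ∈ D, a.pair b ∈ R ∨ a = b ∨ b.pair a ∈ R := by
    intro a ha b hb
    rcases trichotomous_of (fun a b : D => ZFSet.pair a.1 b.1 ∈ R) ⟨a, ha⟩ ⟨b, hb⟩ with h | h | h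
    · exact Or.inl h
    · exact Or.inr (Or.inl (congrArg Subtype.val h))
    · exact Or.inr (Or.inr h)
  have hpres : ∀ S, Good l S → ∀ a b : ZFSet.{u}, a.pair b ∈ R →
      (emb (UU κ) S a).pair (emb (UU κ) S b) ∈ R := by
    intro S hS a b h
    have h1 := emb_sigma1 (U := UU κ) S φ _ ((hdef _).1 h)
    rw [hdef, ← emb_pair]
    have e : (Fin.cons (emb (UU κ) S (a.pair b)) p : Fin (n + 1) → ZFSet.{u}) =
        fun i => emb (UU κ) S ((Fin.cons (a.pair b) p : Fin (n + 1) → ZFSet.{u}) i) := by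
      funext i
      refine Fin.cases rfl (fun j => ?_) i
      simp only [Fin.cons_succ]
      rcases hp j with h | h
      · obtain ⟨t, h1, h2, h3⟩ := hl2 j h
        exact (emb_fix (c := Order.succ l) (fun ξ hξ => UU_comp κ ξ (Order.succ_le_of_lt (hS.1 ξ hξ)))
          h1 (Order.lt_succ_of_le h3) _ h2).symm
      · rw [h, emb_kappa hκ hlim hl1 hS]
    rw [e]
    exact h1
  by_cases hD1 : ∀ x ∈ D, ∀ y ∈ D, x = y
  · have : Subsingleton (Shrink.{u} D) := ⟨fun i j => (equivShrink D).symm.injective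
      (Subtype.ext (hD1 _ ((equivShrink D).symm i).2 _ ((equivShrink D).symm j).2))⟩
    exact (le_one_iff_subsingleton.2 this).trans (one_le_aleph0.trans hκ)
  refine card_le_of_fixed hκ hlim hD fun x hx => exists_fixed hlim hl hwf hpres fun S hS => ?_
  refine htri x hx _ ?_
  obtain ⟨y, hy, hxy⟩ : ∃ y ∈ D, x ≠ y := by
    by_contra hne
    push Not at hne
    exact hD1 fun a ha b hb => (hne a ha).symm.trans (hne b hb)
  rcases htri x hx y hy with h | h | h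
  · exact (hmem (hpres S hS _ _ h)).1
  · exact absurd h hxy
  · exact (hmem (hpres S hS _ _ h)).2

end Pool.Agent.Lib.MP_1748a2_lc
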